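import Pool.Agent.R837.FM.Step

/-!
Blowing up families of functions on an atlas (index set any finite type; adapted from R837.FS.Blow).
-/

set_option autoImplicit false
set_option linter.unusedSectionVars false

open Finset

universe u v w z

namespace Pool.Agent.N840.SK

open Pool.Agent.R837.FM

section blow

variable {k : Type z} [Field k] {L : Type u} [Field L] [Algebra k L]

lemma loc_le_of_inv {R S : Subalgebra k L} {u v : L} (h : R ≤ Loc S v) (hu : u⁻¹ ∈ Loc S v) :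
    Loc R u ≤ Loc S v := loc_le h hu

lemma loc_trans {R S : Subalgebra k L} {u v : L} (h : R ≤ S) (hu : u⁻¹ ∈ Loc S v) :
    Loc R u ≤ Loc S v := loc_le (h.trans (le_loc _ _)) hu

variable {B : Subalgebra k L} {T : Type} [Finite T] {C : T → Subalgebra k L} {H : T → L}
  {κ : Type} [Fintype κ] [DecidableEq κ] {J : κ → Type} [∀ c, Finite (J c)] (f : T → ∀ c, J c → L)

/-- The charts of the blow-up. -/
abbrev BT (f : T → ∀ c, J c → L) : Type :=
  {χ : T × (∀ c, J c) // ∀ c, f χ.1 c (χ.2 c) ≠ 0}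

/-- The chosen functions. -/
def BD (χ : BT f) (c : κ) : L := f χ.1.1 c (χ.1.2 c)

/-- The algebras of the blow-up. -/
noncomputable def BC (C : T → Subalgebra k L) (χ : BT f) : Subalgebra k L :=
  C χ.1.1 ⊔ Algebra.adjoin k {x | ∃ c j, x = f χ.1.1 c j / BD f χ c}

/-- The equations of the blow-up. -/
def BH (H : T → L) (M : ℕ) (χ : BT f) : L := H χ.1.1 ^ M * ∏ c, BD f χ c

lemma BD_ne (χ : BT f) (c : κ) : BD f χ c ≠ 0 := χ.2 c

lemma le_BC (χ : BT f) : C χ.1.1 ≤ BC f C χ := le_sup_left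

lemma ratio_mem_BC (χ : BT f) (c : κ) (j : J c) : f χ.1.1 c j / BD f χ c ∈ BC f C χ :=
  (le_sup_right : Algebra.adjoin k _ ≤ BC f C χ) (Algebra.subset_adjoin ⟨c, j, rfl⟩)

lemma BC_le {χ : BT f} {Q : Subalgebra k L} (h : C χ.1.1 ≤ Q)
    (h' : ∀ c j, f χ.1.1 c j / BD f χ c ∈ Q) : BC f C χ ≤ Q := by
  refine sup_le h (Algebra.adjoin_le_iff.2 ?_)
  rintro x ⟨c, j, rfl⟩
  exact h' c j

/-- Blowing up. -/
theorem blow (H0 : ∀ t, H t ≠ 0) (HB : ∀ t, H t ∈ B) (rt : ∀ t t', H t' / H t ∈ C t)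
    (gl : ∀ t t', C t' ≤ Loc (C t) (H t' / H t)) (dn : ∀ t, C t ≤ Loc B (H t))
    (fC : ∀ t c j, f t c j ∈ C t)
    (sp : ∀ t t' c j, f t' c j ∈
      Submodule.span (Loc (C t) (H t' / H t)) (Set.range fun j => f t c j)) :
    ∃ M, (∀ χ : BT f, BH f H M χ ≠ 0) ∧ (∀ χ : BT f, BH f H M χ ∈ B) ∧
      (∀ χ χ' : BT f, BH f H M χ' / BH f H M χ ∈ BC f C χ) ∧
      (∀ χ χ' : BT f, Loc (C χ.1.1) (H χ'.1.1 / H χ.1.1) ≤
        Loc (BC f C χ) (BH f H M χ' / BH f H M χ)) ∧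
      (∀ (χ χ' : BT f) c, BD f χ' c / BD f χ c ∈ Loc (BC f C χ) (BH f H M χ' / BH f H M χ)) ∧
      (∀ (χ χ' : BT f) c, BD f χ c / BD f χ' c ∈ Loc (BC f C χ) (BH f H M χ' / BH f H M χ)) ∧
      (∀ χ χ' : BT f, BC f C χ' ≤ Loc (BC f C χ) (BH f H M χ' / BH f H M χ)) ∧
      (∀ χ : BT f, Loc B (H χ.1.1) ≤ Loc B (BH f H M χ)) ∧
      (∀ (χ : BT f) c, (BD f χ c)⁻¹ ∈ Loc B (BH f H M χ)) ∧
      (∀ χ : BT f, BC f C χ ≤ Loc B (BH f H M χ)) ∧
      (∀ χ : BT f, ∃ a ∈ B, BH f H M χ = H χ.1.1 * a) := by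
  classical
  have hR0 : ∀ t t', H t' / H t ≠ 0 := fun t t' => div_ne_zero (H0 _) (H0 _)
  -- the ratios are in the localized algebra
  have h1 : ∀ (χ : BT f) (t' : T) c (j : J c), f t' c j / BD f χ c ∈
      Loc (BC f C χ) (H t' / H χ.1.1) := by
    intro χ t' c j
    refine Submodule.span_induction (p := fun x _ => x / BD f χ c ∈
      Loc (BC f C χ) (H t' / H χ.1.1)) ?_ ?_ ?_ ?_ (sp χ.1.1 t' c j)
    · rintro _ ⟨j', rfl⟩
      exact le_loc _ _ (ratio_mem_BC f χ c j')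
    · rw [zero_div]
      exact Subalgebra.zero_mem _
    · intro x y _ _ hx hy
      rw [add_div]
      exact Subalgebra.add_mem _ hx hy
    · intro a x _ hx
      have h2 : (a • x) / BD f χ c = a.1 * (x / BD f χ c) := by
        rw [Algebra.smul_def, mul_div_assoc]
        rfl
      rw [h2]
      exact Subalgebra.mul_mem _ (loc_mono (le_BC f χ) _ a.2) hx
  -- a common exponent
  obtain ⟨M1, hM1⟩ := exists_unif
    (fun (p : BT f × BT f × κ) N =>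
      (H p.2.1.1.1 / H p.1.1.1) ^ N * (BD f p.2.1 p.2.2 / BD f p.1 p.2.2) ∈ BC f C p.1)
    (by
      rintro ⟨χ, χ', c⟩ N N' hN h
      obtain ⟨a, rfl⟩ := Nat.exists_eq_add_of_le hN
      have h2 : (H χ'.1.1 / H χ.1.1) ^ (N + a) * (BD f χ' c / BD f χ c) =
          (H χ'.1.1 / H χ.1.1) ^ a * ((H χ'.1.1 / H χ.1.1) ^ N * (BD f χ' c / BD f χ c)) := by
        ring
      change (H χ'.1.1 / H χ.1.1) ^ (N + a) * (BD f χ' c / BD f χ c) ∈ BC f C χ
      rw [h2]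
      exact Subalgebra.mul_mem _ (Subalgebra.pow_mem _ (le_BC f χ (rt _ _)) _) h)
    (by
      rintro ⟨χ, χ', c⟩
      exact exists_pow_mul (le_BC f χ (rt _ _)) (hR0 _ _) (h1 χ χ'.1.1 c _))
  obtain ⟨M2, hM2⟩ := exists_unif (fun (p : BT f × κ) N =>
      H p.1.1.1 ^ N * BD f p.1 p.2 ∈ B)
    (by
      rintro ⟨χ, c⟩ N N' hN h
      obtain ⟨a, rfl⟩ := Nat.exists_eq_add_of_le hN
      have h2 : H χ.1.1 ^ (N + a) * BD f χ c = H χ.1.1 ^ a * (H χ.1.1 ^ N * BD f χ c) := by ring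
      change H χ.1.1 ^ (N + a) * BD f χ c ∈ B
      rw [h2]
      exact Subalgebra.mul_mem _ (Subalgebra.pow_mem _ (HB _) _) h)
    (by
      rintro ⟨χ, c⟩
      exact exists_pow_mul (HB _) (H0 _) (dn _ (fC _ _ _)))
  let M0 := max M1 M2
  have hM1' : ∀ (χ χ' : BT f) c,
      (H χ'.1.1 / H χ.1.1) ^ M0 * (BD f χ' c / BD f χ c) ∈ BC f C χ := by
    intro χ χ' c
    obtain ⟨a, ha⟩ := Nat.exists_eq_add_of_le (le_max_left M1 M2)
    have h2 : (H χ'.1.1 / H χ.1.1) ^ M0 * (BD f χ' c / BD f χ c) =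
        (H χ'.1.1 / H χ.1.1) ^ a * ((H χ'.1.1 / H χ.1.1) ^ M1 * (BD f χ' c / BD f χ c)) := by
      change (H χ'.1.1 / H χ.1.1) ^ (max M1 M2) * _ = _
      rw [ha]
      ring
    rw [h2]
    exact Subalgebra.mul_mem _ (Subalgebra.pow_mem _ (le_BC f χ (rt _ _)) _) (hM1 (χ, χ', c))
  have hM2' : ∀ (χ : BT f) c, H χ.1.1 ^ M0 * BD f χ c ∈ B := by
    intro χ c
    obtain ⟨a, ha⟩ := Nat.exists_eq_add_of_le (le_max_right M1 M2)
    have h2 : H χ.1.1 ^ M0 * BD f χ c = H χ.1.1 ^ a * (H χ.1.1 ^ M2 * BD f χ c) := by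
      change H χ.1.1 ^ (max M1 M2) * _ = _
      rw [ha]
      ring
    rw [h2]
    exact Subalgebra.mul_mem _ (Subalgebra.pow_mem _ (HB _) _) (hM2 (χ, c))
  let M := Fintype.card κ * M0 + 1
  have hBH : ∀ χ : BT f, BH f H M χ = H χ.1.1 * ∏ c, (H χ.1.1 ^ M0 * BD f χ c) := by
    intro χ
    rw [Finset.prod_mul_distrib, Finset.prod_const, Finset.card_univ]
    change H χ.1.1 ^ (Fintype.card κ * M0 + 1) * _ = _
    rw [pow_succ, mul_comm (Fintype.card κ) M0, pow_mul]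
    ring
  have hdiv : ∀ χ χ' : BT f, BH f H M χ' / BH f H M χ = H χ'.1.1 / H χ.1.1 *
      ∏ c, ((H χ'.1.1 / H χ.1.1) ^ M0 * (BD f χ' c / BD f χ c)) := by
    intro χ χ'
    rw [hBH, hBH, mul_div_mul_comm, ← Finset.prod_div_distrib]
    congr 1
    refine Finset.prod_congr rfl fun c _ => ?_
    rw [mul_div_mul_comm, ← div_pow]
  have hprod0 : ∀ (χ χ' : BT f) (s : Finset κ),
      ∏ c ∈ s, ((H χ'.1.1 / H χ.1.1) ^ M0 * (BD f χ' c / BD f χ c)) ≠ 0 := fun χ χ' s =>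
    Finset.prod_ne_zero_iff.2 fun c _ => mul_ne_zero (pow_ne_zero _ (hR0 _ _))
      (div_ne_zero (BD_ne f _ _) (BD_ne f _ _))
  have hloc : ∀ χ χ' : BT f, Loc (BC f C χ) (H χ'.1.1 / H χ.1.1) ≤
      Loc (BC f C χ) (BH f H M χ' / BH f H M χ) := by
    intro χ χ'
    rw [hdiv]
    exact loc_le_of_mul (Subalgebra.prod_mem _ fun c _ => hM1' χ χ' c) (hprod0 χ χ' _)
  have hrat : ∀ (χ χ' : BT f) c, BD f χ' c / BD f χ c ∈
      Loc (BC f C χ) (BH f H M χ' / BH f H M χ) := fun χ χ' c =>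
    hloc χ χ' (h1 χ χ'.1.1 c _)
  have hinv : ∀ (χ χ' : BT f) c, BD f χ c / BD f χ' c ∈
      Loc (BC f C χ) (BH f H M χ' / BH f H M χ) := by
    intro χ χ' c
    have h2 : BD f χ c / BD f χ' c = (H χ'.1.1 / H χ.1.1) ^ (M0 + 1) *
        (∏ c' ∈ Finset.univ.erase c,
          ((H χ'.1.1 / H χ.1.1) ^ M0 * (BD f χ' c' / BD f χ c'))) *
        (BH f H M χ' / BH f H M χ)⁻¹ := by
      have h3 := hprod0 χ χ' (Finset.univ.erase c)
      have h4 := hR0 χ.1.1 χ'.1.1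
      have h5 : BD f χ' c ≠ 0 := BD_ne f χ' c
      have h6 : BD f χ c ≠ 0 := BD_ne f χ c
      rw [hdiv, ← Finset.prod_erase_mul Finset.univ _ (Finset.mem_univ c)]
      generalize (∏ c' ∈ Finset.univ.erase c,
          ((H χ'.1.1 / H χ.1.1) ^ M0 * (BD f χ' c' / BD f χ c'))) = p at h3
      generalize H χ'.1.1 / H χ.1.1 = α at h4
      rw [pow_succ]
      field_simp
    rw [h2]
    refine Subalgebra.mul_mem _ (Subalgebra.mul_mem _ (Subalgebra.pow_mem _ ?_ _)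
      (Subalgebra.prod_mem _ fun c' _ => ?_)) (inv_mem_loc _ _)
    · exact le_loc _ _ (le_BC f χ (rt _ _))
    · exact le_loc _ _ (hM1' χ χ' c')
  have hle : ∀ χ χ' : BT f, Loc (C χ.1.1) (H χ'.1.1 / H χ.1.1) ≤
        Loc (BC f C χ) (BH f H M χ' / BH f H M χ) := fun χ χ' =>
    (loc_mono (le_BC f χ) _).trans (hloc χ χ')
  have hlocB : ∀ χ : BT f, Loc B (H χ.1.1) ≤ Loc B (BH f H M χ) := by
    intro χ
    rw [hBH]
    exact loc_le_of_mul (Subalgebra.prod_mem _ fun c _ => hM2' χ c)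
      (Finset.prod_ne_zero_iff.2 fun c _ => mul_ne_zero (pow_ne_zero _ (H0 _)) (BD_ne f _ _))
  have hinvB : ∀ (χ : BT f) c, (BD f χ c)⁻¹ ∈ Loc B (BH f H M χ) := by
    intro χ c
    have h2 : (BD f χ c)⁻¹ = H χ.1.1 ^ (M0 + 1) *
        (∏ c' ∈ Finset.univ.erase c, (H χ.1.1 ^ M0 * BD f χ c')) * (BH f H M χ)⁻¹ := by
      have h3 : ∏ c' ∈ Finset.univ.erase c, (H χ.1.1 ^ M0 * BD f χ c') ≠ 0 :=
        Finset.prod_ne_zero_iff.2 fun c _ => mul_ne_zero (pow_ne_zero _ (H0 _)) (BD_ne f _ _)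
      have h4 := H0 χ.1.1
      have h5 : BD f χ c ≠ 0 := BD_ne f χ c
      rw [hBH, ← Finset.prod_erase_mul Finset.univ _ (Finset.mem_univ c)]
      generalize (∏ c' ∈ Finset.univ.erase c, (H χ.1.1 ^ M0 * BD f χ c')) = p at h3
      generalize H χ.1.1 = α at h4
      rw [pow_succ]
      field_simp
    rw [h2]
    exact Subalgebra.mul_mem _ (Subalgebra.mul_mem _ (Subalgebra.pow_mem _
      (le_loc _ _ (HB _)) _) (Subalgebra.prod_mem _ fun c' _ => le_loc _ _ (hM2' χ c')))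
      (inv_mem_loc _ _)
  refine ⟨M, ?_, ?_, ?_, hle, hrat, hinv, ?_, hlocB, hinvB, ?_,
    fun χ => ⟨_, Subalgebra.prod_mem _ fun c _ => hM2' χ c, hBH χ⟩⟩
  · intro χ
    exact mul_ne_zero (pow_ne_zero _ (H0 _)) (Finset.prod_ne_zero_iff.2 fun c _ => BD_ne f _ _)
  · intro χ
    rw [hBH]
    exact B.mul_mem (HB _) (B.prod_mem fun c _ => hM2' χ c)
  · intro χ χ'
    rw [hdiv]
    exact Subalgebra.mul_mem _ (le_BC f χ (rt _ _)) (Subalgebra.prod_mem _ fun c _ => hM1' χ χ' c)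
  · intro χ χ'
    refine BC_le f ((gl _ _).trans (hle χ χ')) fun c j => ?_
    have h2 : f χ'.1.1 c j / BD f χ' c =
        f χ'.1.1 c j / BD f χ c * (BD f χ c / BD f χ' c) := by
      have h3 := BD_ne f χ c
      field_simp
    rw [h2]
    exact Subalgebra.mul_mem _ (hloc χ χ' (h1 χ χ'.1.1 c j)) (hinv χ χ' c)
  · intro χ
    refine BC_le f ((dn _).trans (hlocB χ)) fun c j => ?_
    rw [div_eq_mul_inv]
    exact Subalgebra.mul_mem _ (hlocB χ (dn _ (fC _ _ _))) (hinvB χ c)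

end blow

end Pool.Agent.N840.SK
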