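import Pool.Agent.R837.FD.KumM3
import Pool.Agent.R837.FS.Frob
import Pool.Agent.R837.FS.Blk
import Pool.Agent.R837.FS.Piv
import Pool.Agent.N840.SK.Blow

/-!
Radicals of determinants: from charts with square matrices and roots of their determinants to a
resolution (blow-up of the ideals of minors and Kummer coverings).
-/

set_option autoImplicit false
set_option linter.unusedSectionVars false

open Finset AlgebraicGeometry CategoryTheory

universe u v w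

namespace Pool.Agent.N840.SK

open Pool.Agent.R837.FM Pool.Agent.R837.FS Pool.Agent.R837.FD

section graded

variable {k L : Type u} [Field k] [Field L] [Algebra k L] {I : Type}

lemma pow_mem_D {D0 : (I → ℤ) → Submodule k L} (h1 : (1 : L) ∈ D0 0)
    (Dmul : ∀ p p' a b, a ∈ D0 p → b ∈ D0 p' → a * b ∈ D0 (p + p')) {h : L} (hh : h ∈ D0 0)
    (M : ℕ) : h ^ M ∈ D0 0 := by
  induction M with
  | zero =>
    rw [pow_zero]
    exact h1
  | succ M ih =>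
    rw [pow_succ]
    have h2 := Dmul 0 0 _ _ ih hh
    rwa [add_zero] at h2

/-- The elements with a multiple by a power of `h` in `D p`. -/
def LD (D0 : (I → ℤ) → Submodule k L) (h1 : (1 : L) ∈ D0 0)
    (Dmul : ∀ p p' a b, a ∈ D0 p → b ∈ D0 p' → a * b ∈ D0 (p + p')) (h : L) (hh : h ∈ D0 0)
    (p : I → ℤ) : Submodule k L where
  carrier := {x | ∃ M : ℕ, h ^ M * x ∈ D0 p}
  add_mem' := by
    rintro x y ⟨M1, hx⟩ ⟨M2, hy⟩
    refine ⟨M1 + M2, ?_⟩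
    have h2 : h ^ (M1 + M2) * (x + y) = h ^ M2 * (h ^ M1 * x) + h ^ M1 * (h ^ M2 * y) := by ring
    rw [h2]
    have h3 := Dmul 0 p _ _ (pow_mem_D h1 Dmul hh M2) hx
    have h4 := Dmul 0 p _ _ (pow_mem_D h1 Dmul hh M1) hy
    rw [zero_add] at h3 h4
    exact add_mem h3 h4
  zero_mem' := ⟨0, by rw [mul_zero]; exact zero_mem _⟩
  smul_mem' := by
    rintro e x ⟨M, hx⟩
    refine ⟨M, ?_⟩
    rw [mul_smul_comm]
    exact Submodule.smul_mem _ e hx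

end graded

section seq

variable {L : Type u} [Field L] {I : Type} {n : I → ℕ}

/-- The sequence of the chosen minors. -/
noncomputable def DQ (bd : (Σ b : I, Fin (n b)) → L) (b : I) : ℕ → L
  | 0 => 1
  | (c + 1) => if h : c < n b then bd ⟨b, ⟨c, h⟩⟩ else 1

lemma DQ_zero (bd : (Σ b : I, Fin (n b)) → L) (b : I) : DQ bd b 0 = 1 := rfl

lemma DQ_succ (bd : (Σ b : I, Fin (n b)) → L) (b : I) (c : Fin (n b)) :
    DQ bd b (c + 1) = bd ⟨b, c⟩ := dif_pos c.2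

lemma DQ_ind {bd : (Σ b : I, Fin (n b)) → L} {p : L → Prop} (h1 : p 1) (hb : ∀ c, p (bd c))
    (b : I) (c : ℕ) : p (DQ bd b c) := by
  rcases c with _ | c
  · exact h1
  · change p (if h : c < n b then bd ⟨b, ⟨c, h⟩⟩ else 1)
    split_ifs
    · exact hb _
    · exact h1

lemma DQ_ne {bd : (Σ b : I, Fin (n b)) → L} (hb : ∀ c, bd c ≠ 0) (b : I) (c : ℕ) :
    DQ bd b c ≠ 0 := DQ_ind (p := fun a => a ≠ 0) one_ne_zero hb b c

lemma DQ_ind2 {bd bd' : (Σ b : I, Fin (n b)) → L} {p : L → L → Prop} (h1 : p 1 1)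
    (hb : ∀ c, p (bd c) (bd' c)) (b : I) (c : ℕ) : p (DQ bd b c) (DQ bd' b c) := by
  rcases c with _ | c
  · exact h1
  · change p (if h : c < n b then bd ⟨b, ⟨c, h⟩⟩ else 1)
      (if h : c < n b then bd' ⟨b, ⟨c, h⟩⟩ else 1)
    split_ifs
    · exact hb _
    · exact h1

end seq

section cov

variable {k L : Type u} [Field k] [Field L] [Algebra k L] {I : Type} [Fintype I]
  [DecidableEq I] {n : I → ℕ} {T : Type} [Finite T]

/-- The minors. -/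
noncomputable def ff (Φ : T → ∀ b, Matrix (Fin (n b)) (Fin (n b)) L) (t : T)
    (c : Σ b : I, Fin (n b))
    (p : (Fin ((c.2 : ℕ) + 1) → Fin (n c.1)) × (Fin ((c.2 : ℕ) + 1) → Fin (n c.1))) : L :=
  ((Φ t c.1).submatrix p.1 p.2).det

/-- The good charts of the blow-up. -/
def GC (n : I → ℕ) (C : Subalgebra k L) (y : (Σ b : I, Fin (n b)) → L) : Prop :=
  ∃ (P : Type) (_ : Fintype P) (w : P → L),
    C = Algebra.adjoin k (Set.range w ∪ Set.range y) ∧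
    ((Fintype.card P + ∑ b, n b : ℕ) : Cardinal) ≤ Algebra.trdeg k L

/-- The coordinates of the divisors. -/
noncomputable def yy (Φ : T → ∀ b, Matrix (Fin (n b)) (Fin (n b)) L) (χ : BT (ff Φ))
    (j : Σ b : I, Fin (n b)) : L := yD (DQ (BD (ff Φ) χ) j.1) j.2

theorem cover {Φ : T → ∀ b, Matrix (Fin (n b)) (Fin (n b)) L} {C : T → Subalgebra k L} {t : T}
    (hΦ : ∀ b, Ent (C t) (Φ t b)) (hdet : ∀ b, (Φ t b).det ≠ 0)
    (gen : ∃ (P : Type) (_ : Fintype P) (w : P → L),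
      C t = Algebra.adjoin k (Set.range w ∪ {a | ∃ b i j, a = Φ t b i j}) ∧
      ((Fintype.card P + ∑ b, n b * n b : ℕ) : Cardinal) ≤ Algebra.trdeg k L)
    (V : ValuationSubring L) (hV : ∀ a ∈ C t, a ∈ V) :
    ∃ χ : BT (ff Φ), χ.1.1 = t ∧ GC n (BC (ff Φ) C χ) (yy Φ χ) ∧
      ∀ a ∈ BC (ff Φ) C χ, a ∈ V := by
  classical
  have hk : ∀ c : k, algebraMap k L c ∈ V := fun c => hV _ (Subalgebra.algebraMap_mem _ c)
  obtain ⟨P0, hP0, w0, hw0, htr⟩ := gen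
  choose d P hP gs hpv hd1 using fun b => piv (k := k) V (n b) (Φ t b)
    (fun i j => hV _ (hΦ b i j)) (hdet b)
  choose F1 G1 hFG using fun c : Σ b : I, Fin (n b) => (hpv c.1).mi (c.2 + 1) c.2.2
  have hne : ∀ c, ff Φ t c (F1 c, G1 c) ≠ 0 := by
    intro c
    have h1 : ff Φ t c (F1 c, G1 c) = DD (d c.1) (c.2 + 1) := hFG c
    rw [h1]
    exact DD_ne (hpv c.1).d0 _
  let χ : BT (ff Φ) := ⟨(t, fun c => (F1 c, G1 c)), hne⟩
  have hBD : ∀ c : Σ b : I, Fin (n b), BD (ff Φ) χ c = DD (d c.1) (c.2 + 1) := fun c => hFG c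
  have hDQ : ∀ b, ∀ c ≤ n b, DQ (BD (ff Φ) χ) b c = DD (d b) c := by
    intro b c hc
    rcases c with _ | c
    · rfl
    · exact (DQ_succ (BD (ff Φ) χ) b ⟨c, hc⟩).trans (hBD ⟨b, ⟨c, hc⟩⟩)
  have hy : ∀ j, yy Φ χ j = d j.1 j.2 := fun j =>
    (yD_congr (hDQ j.1) j.2.2).trans (yD_DD (hpv j.1).d0 j.2)
  have hle : C t ≤ BC (ff Φ) C χ := le_BC (ff Φ) χ
  have hQ : ∀ b, (∀ i < n b, d b i ∈ BC (ff Φ) C χ) ∧ ∀ p, gs b p ∈ BC (ff Φ) C χ := by
    intro b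
    refine (hpv b).conv _ (fun i j => hle (hΦ b i j)) ?_
    intro c hc F G
    have h1 := ratio_mem_BC (C := C) (ff Φ) χ ⟨b, ⟨c, hc⟩⟩ (F, G)
    rw [hBD] at h1
    exact h1
  -- the generators
  let W : P0 ⊕ (Σ b, P b) → L := Sum.elim w0 fun p => gs p.1 p.2
  let Qa : Subalgebra k L := Algebra.adjoin k (Set.range W ∪ Set.range (yy Φ χ))
  have hWQ : ∀ p, W p ∈ Qa := fun p => Algebra.subset_adjoin (Or.inl ⟨p, rfl⟩)
  have hyQ : ∀ j, yy Φ χ j ∈ Qa := fun j => Algebra.subset_adjoin (Or.inr ⟨j, rfl⟩)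
  have hddQ : ∀ b, ∀ i < n b, d b i ∈ Qa := by
    intro b i hi
    have h1 := hyQ ⟨b, ⟨i, hi⟩⟩
    rwa [hy] at h1
  have hdlQ : ∀ b, ∀ i < n b, dl (d b) i ∈ Qa := by
    intro b i hi
    exact Qa.prod_mem fun j hj => hddQ b j (by have := Finset.mem_range.1 hj; omega)
  have hdom : ∀ b, Dom Qa (Matrix.diagonal fun i : Fin (n b) => dl (d b) i) (Φ t b) := by
    intro b
    obtain ⟨A, B, hA, hB, h1⟩ := (hpv b).dec
    have h2 : Algebra.adjoin k (Set.range (gs b)) ≤ Qa := by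
      rw [Algebra.adjoin_le_iff]
      rintro _ ⟨p, rfl⟩
      exact hWQ (Sum.inr ⟨b, p⟩)
    exact ⟨A, B, hA.mono h2, hB.mono h2, h1⟩
  have hΦQ : ∀ b, Ent Qa (Φ t b) := by
    intro b
    obtain ⟨A, B, hA, hB, h1⟩ := hdom b
    rw [h1]
    refine (hA.mul ?_).mul hB
    intro i j
    rw [Matrix.diagonal_apply]
    split_ifs
    · exact hdlQ b i i.2
    · exact Qa.zero_mem
  have heq : BC (ff Φ) C χ = Qa := by
    apply le_antisymm
    · refine BC_le (ff Φ) ?_ ?_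
      · change C t ≤ Qa
        rw [hw0, Algebra.adjoin_le_iff]
        rintro _ (⟨p, rfl⟩ | ⟨b, i, j, rfl⟩)
        · exact hWQ (Sum.inl p)
        · exact hΦQ b i j
      · rintro c ⟨F2, G2⟩
        obtain ⟨b, hb, h1⟩ := minor_of_dom (hddQ c.1) (hdom c.1) F2 G2
        have h2 : ff Φ χ.1.1 c (F2, G2) / BD (ff Φ) χ c = b := by
          rw [hBD]
          change ((Φ t c.1).submatrix F2 G2).det / _ = _
          rw [h1, mul_div_cancel_left₀ _ (DD_ne (hpv c.1).d0 _)]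
        rw [h2]
        exact hb
    · rw [Algebra.adjoin_le_iff]
      rintro _ (⟨p | p, rfl⟩ | ⟨j, rfl⟩)
      · refine hle ?_
        rw [hw0]
        exact Algebra.subset_adjoin (Or.inl ⟨p, rfl⟩)
      · exact (hQ p.1).2 p.2
      · rw [hy]
        exact (hQ j.1).1 _ j.2.2
  refine ⟨χ, rfl, ⟨P0 ⊕ (Σ b, P b), inferInstance, W, heq, ?_⟩, ?_⟩
  · refine le_trans (le_of_eq ?_) htr
    have h1 : ∑ b, n b * n b = ∑ b, (Fintype.card (P b) + n b) :=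
      Finset.sum_congr rfl fun b _ => (hpv b).card.symm
    rw [h1, Finset.sum_add_distrib, Fintype.card_sum, Fintype.card_sigma, add_assoc]
  · have h1 : Qa ≤ valAlg V hk := by
      rw [Algebra.adjoin_le_iff]
      rintro _ (⟨p | p, rfl⟩ | ⟨j, rfl⟩)
      · refine hV _ ?_
        rw [hw0]
        exact Algebra.subset_adjoin (Or.inl ⟨p, rfl⟩)
      · exact (hpv p.1).gV p.2
      · rw [hy]
        exact (hpv j.1).dV _
    intro a ha
    rw [heq] at ha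
    exact h1 ha

end cov

section gens

lemma exists_gens {I : Type} [Fintype I] (K : AddSubgroup (I → ℤ)) :
    ∃ q : I → I → ℤ, K = AddSubgroup.closure (Set.range q) := by
  classical
  let K' : Submodule ℤ (I → ℤ) := AddSubgroup.toIntSubmodule K
  let b := Module.finBasis ℤ K'
  have hr : Module.finrank ℤ K' ≤ Fintype.card I := by
    have h1 := Submodule.finrank_le K'
    rwa [Module.finrank_fintype_fun_eq_card] at h1
  let e := Fintype.equivFin I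
  refine ⟨fun i => if h : (e i : ℕ) < Module.finrank ℤ K' then (b ⟨e i, h⟩ : I → ℤ) else 0, ?_⟩
  apply le_antisymm
  · intro c hc
    have h1 : (⟨c, hc⟩ : K') = ∑ j, b.repr ⟨c, hc⟩ j • b j := (b.sum_repr _).symm
    have h2 : c = ∑ j, b.repr ⟨c, hc⟩ j • (b j : I → ℤ) := by
      have h3 : K'.subtype ⟨c, hc⟩ = K'.subtype (∑ j, b.repr ⟨c, hc⟩ j • b j) :=
        congrArg _ h1
      rw [map_sum] at h3
      refine h3.trans (Finset.sum_congr rfl fun j _ => ?_)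
      rw [map_smul]
      rfl
    rw [h2]
    refine AddSubgroup.sum_mem _ fun j _ => AddSubgroup.zsmul_mem _
      (AddSubgroup.subset_closure ?_) _
    have hj : (j : ℕ) < Fintype.card I := lt_of_lt_of_le j.2 hr
    refine ⟨e.symm ⟨j, hj⟩, ?_⟩
    have h3 : (e (e.symm ⟨j, hj⟩) : ℕ) = j := by rw [Equiv.apply_symm_apply]
    have h4 : (e (e.symm ⟨j, hj⟩) : ℕ) < Module.finrank ℤ K' := by
      rw [h3]
      exact j.2
    change (if h : (e (e.symm ⟨j, hj⟩) : ℕ) < Module.finrank ℤ K' then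
      (b ⟨e (e.symm ⟨j, hj⟩), h⟩ : I → ℤ) else 0) = _
    rw [dif_pos h4]
    congr 2
    exact Fin.ext h3
  · rw [AddSubgroup.closure_le]
    rintro _ ⟨i, rfl⟩
    change (if h : (e i : ℕ) < Module.finrank ℤ K' then
      (b ⟨e i, h⟩ : I → ℤ) else 0) ∈ K
    split_ifs with h
    · exact (b ⟨e i, h⟩).2
    · exact K.zero_mem

end gens

section main

variable {k A L : Type u} [Field k] [CommRing A] [IsDomain A] [Algebra k A] [Field L]
  [Algebra k L] {g : A →ₐ[k] L} {I : Type} [Fintype I] [DecidableEq I] {n : I → ℕ}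

lemma alg_mono {C C' : Subalgebra k L} (h : C ≤ C') (ha : Algebra.IsAlgebraic C L) :
    Algebra.IsAlgebraic C' L := by
  refine ⟨fun x => ?_⟩
  obtain ⟨p, hp0, hp⟩ := ha.isAlgebraic x
  refine ⟨p.map (Subalgebra.inclusion h).toRingHom, ?_, ?_⟩
  · rw [Ne, Polynomial.map_eq_zero_iff (Subalgebra.inclusion_injective h)]
    exact hp0
  · rw [Polynomial.aeval_def, Polynomial.eval₂_map]
    exact hp

lemma int_mono {C C' : Subalgebra k L} (h : C ≤ C') {b : L} (hb : IsIntegral C b) :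
    IsIntegral C' b := by
  obtain ⟨p, hp, hp0⟩ := hb
  refine ⟨p.map (Subalgebra.inclusion h).toRingHom, hp.map _, ?_⟩
  rw [Polynomial.eval₂_map]
  exact hp0

/-- The algebra generated by the chart and the invariant products of the elements `z`. -/
noncomputable def QQ (C : Subalgebra k L) (z : I → L) (K : AddSubgroup (I → ℤ)) :
    Subalgebra k L :=
  Algebra.adjoin k ((C : Set L) ∪ {e | ∃ c ∈ K, (∀ b, 0 ≤ c b) ∧ e = ∏ b, z b ^ c b})

lemma QQ_mono {C C' : Subalgebra k L} (h : C ≤ C') (z : I → L) (K : AddSubgroup (I → ℤ)) :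
    QQ C z K ≤ QQ C' z K :=
  Algebra.adjoin_mono (Set.union_subset_union_left _ h)

theorem detcover (hg : Function.Injective g) {N : ℕ} (hN : 0 < N) (hn : ∀ b, 0 < n b)
    (K : AddSubgroup (I → ℤ)) (hNK : ∀ q : I → ℤ, N • q ∈ K)
    {T : Type} [Finite T] {C : T → Subalgebra k L} {H : T → L}
    {Φ : T → ∀ b, Matrix (Fin (n b)) (Fin (n b)) L} {z : T → I → L}
    (D0 : (I → ℤ) → Submodule k L)
    (hD0 : ∀ x ∈ D0 0, ∃ a, x = g a) (hD0' : ∀ a, g a ∈ D0 0)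
    (D1 : ∀ q ∈ K, (1 : L) ∈ D0 q)
    (Dmul : ∀ p p' a b, a ∈ D0 p → b ∈ D0 p' → a * b ∈ D0 (p + p'))
    (H0 : ∀ t, H t ≠ 0) (HB : ∀ t, H t ∈ g.range)
    (rt : ∀ t t', H t' / H t ∈ C t) (gl : ∀ t t', C t' ≤ Loc (C t) (H t' / H t))
    (dn : ∀ t, C t ≤ Loc g.range (H t))
    (cv : ∀ V : ValuationSubring L, (∀ a, g a ∈ V) → ∃ t, ∀ x ∈ C t, x ∈ V)
    (hΦ : ∀ t b, Ent (C t) (Φ t b))
    (hdom : ∀ t t' b, Dom (Loc (C t) (H t' / H t)) (Φ t b) (Φ t' b))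
    (z0 : ∀ t b, z t b ≠ 0) (hz : ∀ t b, z t b ^ N = (Φ t b).det)
    (z1 : ∀ t t' b, z t' b / z t b ∈ Loc (C t) (H t' / H t))
    (zd : ∀ t b, ∃ M : ℕ, H t ^ M * z t b ∈ D0 (Pi.single b 1))
    (zd' : ∀ t b, ∃ M : ℕ, H t ^ M * (z t b)⁻¹ ∈ D0 (-Pi.single b 1))
    (gen : ∀ t, ∃ (P : Type) (_ : Fintype P) (w : P → L),
      C t = Algebra.adjoin k (Set.range w ∪ {a | ∃ b i j, a = Φ t b i j}) ∧
      ((Fintype.card P + ∑ b, n b * n b : ℕ) : Cardinal) ≤ Algebra.trdeg k L)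
    (alg : ∀ t, Algebra.IsAlgebraic (C t) L)
    (aa : ∀ t a, IsIntegral (QQ (C t) (z t) K) (g a) ∧
      ∃ x ∈ QQ (C t) (z t) K, ∃ y ∈ QQ (C t) (z t) K, y ≠ 0 ∧ g a * y = x) :
    Pool.Agent.H920R2.HasResolution (X := Spec (CommRingCat.of A))
      (Spec.map (CommRingCat.ofHom (algebraMap k A))) := by
  classical
  have hdet : ∀ t b, (Φ t b).det ≠ 0 := by
    intro t b
    rw [← hz]
    exact pow_ne_zero _ (z0 t b)
  have h1D : (1 : L) ∈ D0 0 := D1 0 K.zero_mem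
  -- the minors
  have hfC : ∀ (t : T) (c : Σ b : I, Fin (n b)) j, ff Φ t c j ∈ C t := fun t c j =>
    det_mem fun i l => hΦ t c.1 _ _
  have hsp : ∀ (t t' : T) (c : Σ b : I, Fin (n b)) j, ff Φ t' c j ∈
      Submodule.span (Loc (C t) (H t' / H t)) (Set.range fun j => ff Φ t c j) := by
    intro t t' c j
    have h1 := mn_dom (hdom t t' c.1) (c.2 + 1) (Submodule.subset_span ⟨j.1, j.2, rfl⟩)
    refine Submodule.span_mono ?_ h1
    rintro _ ⟨F1, G1, rfl⟩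
    exact ⟨(F1, G1), rfl⟩
  obtain ⟨M, b0, bB, brt, ble, brat, binv, bgl, blB, biB, bdn, bmul⟩ :=
    blow (C := C) (H := H) (B := g.range) (ff Φ) H0 HB rt gl dn hfC hsp
  have hBH0 : ∀ χ : BT (ff Φ), BH (ff Φ) H M χ ∈ D0 0 := by
    intro χ
    obtain ⟨a, ha⟩ := bB χ
    rw [← ha]
    exact hD0' a
  have hH0 : ∀ t, H t ∈ D0 0 := by
    intro t
    obtain ⟨a, ha⟩ := HB t
    rw [← ha]
    exact hD0' a
  -- transport of elements of the graded pieces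
  have hup : ∀ (χ : BT (ff Φ)) (x : L) (p : I → ℤ), (∃ M' : ℕ, H χ.1.1 ^ M' * x ∈ D0 p) →
      ∃ M' : ℕ, BH (ff Φ) H M χ ^ M' * x ∈ D0 p := by
    rintro χ x p ⟨M', hM'⟩
    obtain ⟨a, ⟨a', ha'⟩, ha⟩ := bmul χ
    refine ⟨M', ?_⟩
    have h2 : BH (ff Φ) H M χ ^ M' * x = a ^ M' * (H χ.1.1 ^ M' * x) := by
      rw [ha]
      ring
    rw [h2]
    have ha0 : a ∈ D0 0 := by
      rw [← ha']
      exact hD0' a'
    have h3 := Dmul 0 p _ _ (pow_mem_D h1D Dmul ha0 M') hM'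
    rwa [zero_add] at h3
  have hD0B : ∀ (χ : BT (ff Φ)) (x : L), x ∈ Loc g.range (BH (ff Φ) H M χ) →
      ∃ M' : ℕ, BH (ff Φ) H M χ ^ M' * x ∈ D0 0 := by
    intro χ x hx
    obtain ⟨M', a, ha⟩ := exists_pow_mul (bB χ) (b0 χ) hx
    refine ⟨M', ?_⟩
    rw [← ha]
    exact hD0' a
  let D : BT (ff Φ) → I → ℕ → L := fun χ b => DQ (BD (ff Φ) χ) b
  have hD0' : ∀ χ b c, D χ b c ≠ 0 := fun χ b c => DQ_ne (fun c => BD_ne (ff Φ) χ c) b c
  have hDC : ∀ χ b c, D χ b c ∈ C χ.1.1 := fun χ b c =>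
    DQ_ind (p := fun a => a ∈ C χ.1.1) (Subalgebra.one_mem _) (fun c => hfC _ _ _) b c
  have hDr : ∀ χ χ' b c, D χ' b c / D χ b c ∈
      Loc (BC (ff Φ) C χ) (BH (ff Φ) H M χ' / BH (ff Φ) H M χ) := fun χ χ' b c =>
    DQ_ind2 (p := fun a b => b / a ∈ Loc (BC (ff Φ) C χ) (BH (ff Φ) H M χ' / BH (ff Φ) H M χ))
      (by rw [div_one]; exact Subalgebra.one_mem _) (fun c => brat χ χ' c) b c
  have hDi : ∀ χ χ' b c, D χ b c / D χ' b c ∈
      Loc (BC (ff Φ) C χ) (BH (ff Φ) H M χ' / BH (ff Φ) H M χ) := fun χ χ' b c =>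
    DQ_ind2 (p := fun a b => a / b ∈ Loc (BC (ff Φ) C χ) (BH (ff Φ) H M χ' / BH (ff Φ) H M χ))
      (by rw [div_one]; exact Subalgebra.one_mem _) (fun c => binv χ χ' c) b c
  have hDB : ∀ χ b c, (D χ b c)⁻¹ ∈ Loc g.range (BH (ff Φ) H M χ) := fun χ b c =>
    DQ_ind (p := fun a => a⁻¹ ∈ Loc g.range (BH (ff Φ) H M χ))
      (by rw [inv_one]; exact Subalgebra.one_mem _) (fun c => biB χ c) b c
  have hCB : ∀ χ : BT (ff Φ), C χ.1.1 ≤ Loc g.range (BH (ff Φ) H M χ) := fun χ =>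
    (dn χ.1.1).trans (blB χ)
  have hleC : ∀ χ : BT (ff Φ), C χ.1.1 ≤ BC (ff Φ) C χ := fun χ => le_BC (C := C) (ff Φ) χ
  -- the inverse ratios
  have z2 : ∀ t t' b, z t b / z t' b ∈ Loc (C t) (H t' / H t) := by
    intro t t' b
    have h1 := z1 t' t b
    refine loc_le (gl t t') ?_ h1
    rw [inv_div]
    exact le_loc _ _ (rt t t')
  -- the charts
  let T' := {χ : BT (ff Φ) // GC n (BC (ff Φ) C χ) (yy Φ χ)}
  have hyC : ∀ (t : T') j, yy Φ t.1 j ∈ BC (ff Φ) C t.1 := by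
    intro t j
    obtain ⟨P, hP, w, h1, h2⟩ := t.2
    rw [h1]
    exact Algebra.subset_adjoin (Or.inr ⟨j, rfl⟩)
  have hfinBT : Finite (BT (ff Φ)) := Subtype.finite
  obtain ⟨q, hq⟩ := exists_gens K
  refine kummerM hg (I := I) (nn := n) hN K hNK q hq (T := T') (C := fun t => BC (ff Φ) C t.1)
    (H := fun t => BH (ff Φ) H M t.1) (y := fun t j => yy Φ t.1 j)
    (z := fun t b => z t.1.1.1 b)
    (fun t => b0 t.1) ?_ (fun t t' => brt t.1 t'.1) (fun t t' => bgl t.1 t'.1)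
    (fun t => LD D0 h1D Dmul (BH (ff Φ) H M t.1) (hBH0 t.1)) ?_ ?_ ?_ ?_ ?_ ?_ hyC ?_ ?_ ?_ ?_ ?_
    ?_ ?_ ?_ ?_ ?_ ?_ (fun t => QQ (BC (ff Φ) C t.1) (z t.1.1.1) K) ?_ ?_
  · intro t
    obtain ⟨a, ha⟩ := bB t.1
    exact ⟨a, ha.symm⟩
  · intro t q hq
    exact ⟨0, by rw [pow_zero, one_mul]; exact D1 q hq⟩
  · rintro t p p' a b ⟨M1, h1⟩ ⟨M2, h2⟩
    refine ⟨M1 + M2, ?_⟩
    have h3 : BH (ff Φ) H M t.1 ^ (M1 + M2) * (a * b) =
        (BH (ff Φ) H M t.1 ^ M1 * a) * (BH (ff Φ) H M t.1 ^ M2 * b) := by ring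
    rw [h3]
    exact Dmul _ _ _ _ h1 h2
  · rintro t x ⟨M1, h1⟩
    obtain ⟨a, ha⟩ := hD0 _ h1
    exact ⟨M1, a, ha⟩
  · intro V hV
    obtain ⟨t, ht⟩ := cv V hV
    obtain ⟨χ, hχ, h1, h3⟩ := cover (Φ := Φ) (hΦ t) (hdet t) (gen t) V ht
    exact ⟨⟨χ, h1⟩, h3⟩
  · intro t j
    change D t.1 j.1 (j.2 + 1) * D t.1 j.1 (j.2 - 1) / D t.1 j.1 j.2 ^ 2 ≠ 0
    exact div_ne_zero (mul_ne_zero (hD0' _ _ _) (hD0' _ _ _)) (pow_ne_zero _ (hD0' _ _ _))
  · intro t b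
    exact z0 _ b
  · -- the equation of `z`
    intro t
    have hall : ∀ b, ∃ ε : k, ε ≠ 0 ∧ z t.1.1.1 b ^ N =
        algebraMap k L ε * ∏ j : Fin (n b), yy Φ t.1 ⟨b, j⟩ ^ (n b - j : ℕ) := by
      intro b
      have h2 : ∏ j : Fin (n b), yy Φ t.1 ⟨b, j⟩ ^ (n b - j : ℕ) = D t.1 b (n b) := by
        rw [← DD_yD (hD0' t.1 b) rfl (n b), DD_eq_prod]
        rfl
      have h3 : D t.1 b (n b) = BD (ff Φ) t.1 ⟨b, ⟨n b - 1, by have := hn b; omega⟩⟩ := by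
        have h4 := DQ_succ (BD (ff Φ) t.1) b ⟨n b - 1, by have := hn b; omega⟩
        rw [← h4]
        change DQ _ b (n b) = DQ _ b (n b - 1 + 1)
        rw [Nat.sub_add_cancel (hn b)]
      have h4 := det_full (Φ t.1.1.1 b) (c := n b - 1 + 1)
        (by rw [Fintype.card_fin]; exact Nat.sub_add_cancel (hn b)) _ _
        (BD_ne (ff Φ) t.1 ⟨b, ⟨n b - 1, by have := hn b; omega⟩⟩)
      rcases h4 with h4 | h4
      · refine ⟨1, one_ne_zero, ?_⟩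
        rw [h2, h3, hz, map_one, one_mul]
        exact h4.symm
      · refine ⟨-1, neg_ne_zero.2 one_ne_zero, ?_⟩
        rw [h2, h3, hz, map_neg, map_one, neg_one_mul, eq_neg_iff_add_eq_zero, add_comm,
          ← eq_neg_iff_add_eq_zero]
        exact h4
    choose ε hε h1 using hall
    exact ⟨ε, hε, h1⟩
  · intro t t' j
    have h1 : yy Φ t'.1 j / yy Φ t.1 j = (D t'.1 j.1 (j.2 + 1) / D t.1 j.1 (j.2 + 1)) *
        (D t'.1 j.1 (j.2 - 1) / D t.1 j.1 (j.2 - 1)) * (D t.1 j.1 j.2 / D t'.1 j.1 j.2) ^ 2 := by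
      change D t'.1 j.1 (j.2 + 1) * D t'.1 j.1 (j.2 - 1) / D t'.1 j.1 j.2 ^ 2 /
        (D t.1 j.1 (j.2 + 1) * D t.1 j.1 (j.2 - 1) / D t.1 j.1 j.2 ^ 2) = _
      have := hD0' t.1 j.1 (j.2 + 1)
      have := hD0' t.1 j.1 (j.2 - 1)
      have := hD0' t.1 j.1 j.2
      have := hD0' t'.1 j.1 j.2
      field_simp
    rw [h1]
    exact Subalgebra.mul_mem _ (Subalgebra.mul_mem _ (hDr _ _ _ _) (hDr _ _ _ _))
      (Subalgebra.pow_mem _ (hDi _ _ _ _) _)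
  · intro t t' j
    have h1 : yy Φ t.1 j / yy Φ t'.1 j = (D t.1 j.1 (j.2 + 1) / D t'.1 j.1 (j.2 + 1)) *
        (D t.1 j.1 (j.2 - 1) / D t'.1 j.1 (j.2 - 1)) * (D t'.1 j.1 j.2 / D t.1 j.1 j.2) ^ 2 := by
      change D t.1 j.1 (j.2 + 1) * D t.1 j.1 (j.2 - 1) / D t.1 j.1 j.2 ^ 2 /
        (D t'.1 j.1 (j.2 + 1) * D t'.1 j.1 (j.2 - 1) / D t'.1 j.1 j.2 ^ 2) = _
      have := hD0' t'.1 j.1 (j.2 + 1)
      have := hD0' t'.1 j.1 (j.2 - 1)
      have := hD0' t'.1 j.1 j.2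
      have := hD0' t.1 j.1 j.2
      field_simp
    rw [h1]
    exact Subalgebra.mul_mem _ (Subalgebra.mul_mem _ (hDi _ _ _ _) (hDi _ _ _ _))
      (Subalgebra.pow_mem _ (hDr _ _ _ _) _)
  · intro t t' b
    exact ble t.1 t'.1 (z1 _ _ b)
  · intro t t' b
    exact ble t.1 t'.1 (z2 _ _ b)
  · intro t x hx
    exact hD0B t.1 x (bdn t.1 hx)
  · intro t j
    refine hD0B t.1 _ ?_
    have h1 : (yy Φ t.1 j)⁻¹ = D t.1 j.1 j.2 ^ 2 *
        ((D t.1 j.1 (j.2 + 1))⁻¹ * (D t.1 j.1 (j.2 - 1))⁻¹) := by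
      change (D t.1 j.1 (j.2 + 1) * D t.1 j.1 (j.2 - 1) / D t.1 j.1 j.2 ^ 2)⁻¹ = _
      rw [inv_div, mul_comm (D t.1 j.1 (j.2 + 1)), div_eq_mul_inv, mul_inv]
      ring
    rw [h1]
    exact Subalgebra.mul_mem _ (Subalgebra.pow_mem _ (hCB _ (hDC _ _ _)) _)
      (Subalgebra.mul_mem _ (hDB _ _ _) (hDB _ _ _))
  · intro t b
    exact hup t.1 _ _ (zd' _ b)
  · intro t b
    exact hup t.1 _ _ (zd _ b)
  · intro t
    obtain ⟨P, hP, w, h1, h2⟩ := t.2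
    refine ⟨fun _ => 0, hn, P, hP, w, h1, fun j hj => absurd hj (Nat.not_lt_zero _), ?_⟩
    simpa using h2
  · intro t
    exact alg_mono (hleC t.1) (alg t.1.1.1)
  · intro t Q' h1 h2
    unfold QQ
    rw [Algebra.adjoin_le_iff]
    rintro e (he | ⟨c, hc, hc0, rfl⟩)
    · exact h1 he
    · exact h2 c hc hc0
  · intro t a
    obtain ⟨h1, x, hx, y, hy, h2, h3⟩ := aa t.1.1.1 a
    have h4 := QQ_mono (hleC t.1) (z t.1.1.1) K
    exact ⟨int_mono h4 h1, x, h4 hx, y, h4 hy, h2, h3⟩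

end main

end Pool.Agent.N840.SK
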