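import Pool.Agent.Y212.Pk.Top

/-!
Block triangular matrices and their diagonal blocks.
-/

set_option autoImplicit false
set_option linter.unusedSectionVars false

open Matrix

universe u

namespace Pool.Agent.N840.SK

open Pool.Agent.Y212.Fk Pool.Agent.Y212.Pk

section blocks

variable {R : Type u} [CommRing R] {n s : ℕ} (lv : Fin n → Fin s)

/-- The levels as natural numbers. -/
def lN (i : Fin n) : ℕ := (lv i : ℕ)

/-- The diagonal blocks. -/
def bl (M : Matrix (Fin n) (Fin n) R) (b : Fin s) : Matrix {i // lv i = b} {i // lv i = b} R :=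
  M.submatrix Subtype.val Subtype.val

/-- The lower right parts. -/
def ge (M : Matrix (Fin n) (Fin n) R) (L : ℕ) : Matrix (Rw (lN lv) L) (Rw (lN lv) L) R :=
  M.submatrix Subtype.val Subtype.val

/-- Block triangular matrices. -/
def Tri (M : Matrix (Fin n) (Fin n) R) : Prop := ∀ i j, lv j < lv i → M i j = 0

variable {lv}

lemma Tri.mul {M N : Matrix (Fin n) (Fin n) R} (hM : Tri lv M) (hN : Tri lv N) :
    Tri lv (M * N) := by
  intro i j hij
  rw [Matrix.mul_apply]
  refine Finset.sum_eq_zero fun l _ => ?_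
  by_cases h : lv l < lv i
  · rw [hM i l h, zero_mul]
  · rw [hN l j (lt_of_lt_of_le hij (not_lt.1 h)), mul_zero]

lemma tri_one : Tri lv (1 : Matrix (Fin n) (Fin n) R) := by
  intro i j hij
  rw [Matrix.one_apply_ne]
  rintro rfl
  exact lt_irrefl _ hij

lemma Tri.map {R' : Type u} [CommRing R'] {M : Matrix (Fin n) (Fin n) R} (hM : Tri lv M)
    (f : R →+* R') : Tri lv (M.map f) := by
  intro i j hij
  rw [Matrix.map_apply, hM i j hij, map_zero]

lemma bl_mul {M N : Matrix (Fin n) (Fin n) R} (hM : Tri lv M) (hN : Tri lv N) (b : Fin s) :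
    bl lv (M * N) b = bl lv M b * bl lv N b := by
  classical
  ext1 i j
  rw [Matrix.mul_apply]
  change (M * N) i.1 j.1 = ∑ l : {i // lv i = b}, M i.1 l.1 * N l.1 j.1
  rw [Matrix.mul_apply]
  have h2 := Finset.sum_subtype (Finset.univ.filter (fun l => lv l = b))
    (p := fun l => lv l = b) (F := inferInstance) (fun x => by simp)
    (fun l => M i.1 l * N l j.1)
  rw [← h2]
  symm
  apply Finset.sum_subset (Finset.filter_subset _ _)
  intro l _ hl
  have h3 : lv l ≠ b := by simpa using hl
  have h4 := i.2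
  have h5 := j.2
  rcases lt_or_gt_of_ne h3 with h | h
  · rw [hM i.1 l (by rw [h4]; exact h), zero_mul]
  · rw [hN l j.1 (by rw [h5]; exact h), mul_zero]

lemma bl_one (b : Fin s) : bl lv (1 : Matrix (Fin n) (Fin n) R) b = 1 := by
  ext1 i j
  change (1 : Matrix (Fin n) (Fin n) R) i.1 j.1 = _
  rw [Matrix.one_apply, Matrix.one_apply]
  simp only [Subtype.ext_iff]

lemma bl_map {R' : Type u} [CommRing R'] (M : Matrix (Fin n) (Fin n) R) (f : R →+* R')
    (b : Fin s) : bl lv (M.map f) b = (bl lv M b).map f := rfl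

lemma det_bl_map {R' : Type u} [CommRing R'] (M : Matrix (Fin n) (Fin n) R) (f : R →+* R')
    (b : Fin s) : (bl lv (M.map f) b).det = f (bl lv M b).det := by
  rw [bl_map, RingHom.map_det]
  rfl

lemma det_ge {M : Matrix (Fin n) (Fin n) R} (hM : Tri lv M) (b : Fin s) :
    (ge lv M b).det = (bl lv M b).det * (ge lv M ((b : ℕ) + 1)).det := by
  classical
  rw [Matrix.twoBlockTriangular_det (ge lv M b) (fun i => lv i.1 = b)]
  · congr 1
    · let e : {a : Rw (lN lv) b // lv a.1 = b} ≃ {i // lv i = b} :=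
        { toFun := fun a => ⟨a.1.1, a.2⟩
          invFun := fun i => ⟨⟨i.1, by
            change (b : ℕ) ≤ (lv i.1 : ℕ)
            rw [i.2]⟩, i.2⟩
          left_inv := fun a => rfl
          right_inv := fun i => rfl }
      rw [← Matrix.det_submatrix_equiv_self e]
      rfl
    · let e : {a : Rw (lN lv) b // ¬ lv a.1 = b} ≃ Rw (lN lv) ((b : ℕ) + 1) :=
        { toFun := fun a => ⟨a.1.1, by
            have h1 : (b : ℕ) ≤ (lv a.1.1 : ℕ) := a.1.2
            have h2 : (lv a.1.1 : ℕ) ≠ b := fun h => a.2 (Fin.ext h)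
            change (b : ℕ) + 1 ≤ (lv a.1.1 : ℕ)
            omega⟩
          invFun := fun i => ⟨⟨i.1, by
            have h1 : (b : ℕ) + 1 ≤ (lv i.1 : ℕ) := i.2
            change (b : ℕ) ≤ (lv i.1 : ℕ)
            omega⟩, fun h => by
            have h1 : (b : ℕ) + 1 ≤ (lv i.1 : ℕ) := i.2
            change lv i.1 = b at h
            rw [h] at h1
            omega⟩
          left_inv := fun a => rfl
          right_inv := fun i => rfl }
      rw [← Matrix.det_submatrix_equiv_self e]
      rfl
  · intro i hi j hj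
    refine hM i.1 j.1 ?_
    have h1 : (b : ℕ) ≤ (lv i.1 : ℕ) := i.2
    have h2 : (lv i.1 : ℕ) ≠ b := fun h => hi (Fin.ext h)
    rw [hj]
    change (b : ℕ) < (lv i.1 : ℕ)
    omega

lemma ge_last (M : Matrix (Fin n) (Fin n) R) {L : ℕ} (hL : s ≤ L) : (ge lv M L).det = 1 := by
  have h : IsEmpty (Rw (lN lv) L) := ⟨fun i => by
    have h1 : L ≤ (lv i.1 : ℕ) := i.2
    have := (lv i.1).2
    omega⟩
  exact Matrix.det_isEmpty

/-- The sums of the weights. -/
def om (s : ℕ) (L : ℕ) : Fin s → ℤ := fun c => if L ≤ (c : ℕ) then 1 else 0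

lemma om_succ (b : Fin s) : om s b = Pi.single b 1 + om s ((b : ℕ) + 1) := by
  funext c
  rw [Pi.add_apply, Pi.single_apply]
  unfold om
  by_cases h : c = b
  · subst h
    simp
  · have h2 : (c : ℕ) ≠ b := fun h' => h (Fin.ext h')
    rw [if_neg h, zero_add]
    by_cases h3 : (b : ℕ) ≤ c
    · rw [if_pos h3, if_pos (by omega)]
    · rw [if_neg h3, if_neg (by omega)]

lemma om_last {L : ℕ} (hL : s ≤ L) : om s L = 0 := by
  funext c
  unfold om
  rw [if_neg (by have := c.2; omega)]
  rfl

/-- The lower right determinants as products, for units. -/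
lemma ge_eq_prod {M : Matrix (Fin n) (Fin n) R} (hM : Tri lv M) (U : Fin s → Rˣ)
    (hU : ∀ b, (U b : R) = (bl lv M b).det) (L : ℕ) :
    (ge lv M L).det = ((∏ b, U b ^ om s L b : Rˣ) : R) := by
  have key : ∀ d L, L + d = s → (ge lv M L).det = ((∏ b, U b ^ om s L b : Rˣ) : R) := by
    intro d
    induction d with
    | zero =>
      intro L hL
      rw [ge_last M (by omega), om_last (by omega)]
      simp
    | succ d ih =>
      intro L hL
      have hLs : L < s := by omega
      have h1 := det_ge hM ⟨L, hLs⟩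
      have h2 := om_succ (⟨L, hLs⟩ : Fin s)
      change om s L = _ at h2
      change (ge lv M L).det = _ at h1
      rw [h1, ih (L + 1) (by omega), ← hU, ← Units.val_mul, h2]
      congr 1
      simp only [Pi.add_apply, _root_.zpow_add]
      rw [Finset.prod_mul_distrib]
      congr 1
      rw [Finset.prod_eq_single (⟨L, hLs⟩ : Fin s)]
      · rw [Pi.single_eq_same, zpow_one]
      · intro b _ hb
        rw [Pi.single_eq_of_ne hb, zpow_zero]
      · intro h
        exact absurd (Finset.mem_univ _) h
  by_cases hL : L ≤ s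
  · exact key (s - L) L (by omega)
  · rw [ge_last M (by omega), om_last (by omega)]
    simp

end blocks

end Pool.Agent.N840.SK
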