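import Pool.Agent.N840.SK.Blk
import Pool.Agent.R837.FM.Glue
import Pool.Agent.R837.FS.Min

/-!
The charts of the first kind: the reduced matrix and powers of the entries of the block
triangular factor.
-/

set_option autoImplicit false
set_option linter.unusedSectionVars false

open MvPolynomial Matrix

universe u

namespace Pool.Agent.N840.SK

open Pool.Agent.Y212.Fk Pool.Agent.Y212.Pk Pool.Agent.R837.FM
open Pool.Agent.R837.FS (Ent Dom)

section fld

variable (k : Type u) [Field k] {n m s : ℕ} (lv : Fin n → Fin s)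

/-- The function field. -/
abbrev FF' (k : Type u) [Field k] (n m : ℕ) := FF k n m

/-- The block triangular factor. -/
noncomputable def TT (e : Fin n → Fin m) : Matrix (Fin n) (Fin n) (FF k n m) :=
  (SS k (lN lv) e)⁻¹

/-- The chart. -/
noncomputable def CC (q : ℕ) (e : Fin n → Fin m) : Subalgebra k (FF k n m) :=
  Algebra.adjoin k ({a | ∃ i j, a = UU k (lN lv) e i j} ∪ {a | ∃ i l, a = TT k lv e i l ^ q})

/-- The equation of the complement. -/
noncomputable def HE (q : ℕ) (e : Fin n → Fin m) : FF k n m := ∏ b : Fin s, dK k (lN lv) b e ^ q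

/-- The roots of the determinants. -/
noncomputable def zz (e : Fin n → Fin m) (b : Fin s) : FF k n m := (bl lv (TT k lv e) b).det

variable {k lv}

lemma UU_mem (q : ℕ) (e : Fin n → Fin m) (i : Fin n) (j : Fin m) :
    UU k (lN lv) e i j ∈ CC k lv q e := Algebra.subset_adjoin (Or.inl ⟨i, j, rfl⟩)

lemma TT_mem (q : ℕ) (e : Fin n → Fin m) (i l : Fin n) :
    TT k lv e i l ^ q ∈ CC k lv q e := Algebra.subset_adjoin (Or.inr ⟨i, l, rfl⟩)

lemma CC_le {q : ℕ} {e : Fin n → Fin m} {Q : Subalgebra k (FF k n m)}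
    (h1 : ∀ i j, UU k (lN lv) e i j ∈ Q) (h2 : ∀ i l, TT k lv e i l ^ q ∈ Q) :
    CC k lv q e ≤ Q := by
  unfold CC
  rw [Algebra.adjoin_le_iff]
  rintro _ (⟨i, j, rfl⟩ | ⟨i, l, rfl⟩)
  · exact h1 i j
  · exact h2 i l

lemma dK_last (L : ℕ) (hL : s ≤ L) (e : Fin n → Fin m) : dK k (lN lv) L e = 1 := by
  have h : IsEmpty (Rw (lN lv) L) := ⟨fun i => by
    have h1 : L ≤ (lv i.1 : ℕ) := i.2
    have := (lv i.1).2
    omega⟩
  unfold dK
  exact Matrix.det_isEmpty

section fix

variable {e : Fin n → Fin m} (he : Function.Injective e)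

include he

lemma dK_ne (L : ℕ) : dK k (lN lv) L e ≠ 0 := dK_ne_of_inj (lN lv) L e he

lemma tri_TT : Tri lv (TT k lv e) := fun i l h =>
  TT_zero (lN lv) e (fun _ => dK_ne he _) i l h

omit he in
lemma tri_SS' : Tri lv (SS k (lN lv) e) := by
  intro i l h
  simp only [SS, Matrix.of_apply]
  rw [dif_neg]
  have h1 : (lv l : ℕ) < (lv i : ℕ) := h
  change ¬ ((lv i : ℕ) ≤ (lv l : ℕ))
  omega

lemma isUnit_SS' : IsUnit (SS k (lN lv) e).det :=
  isUnit_SS (lN lv) e fun _ => dK_ne he _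

lemma TT_SS : TT k lv e * SS k (lN lv) e = 1 := Matrix.nonsing_inv_mul _ (isUnit_SS' he)

lemma SS_TT : SS k (lN lv) e * TT k lv e = 1 := Matrix.mul_nonsing_inv _ (isUnit_SS' he)

lemma TT_UU : TT k lv e * UU k (lN lv) e = XK k n m :=
  TT_mul (lN lv) e fun _ => dK_ne he _

lemma dK_eq_ge (L : ℕ) : dK k (lN lv) L e = (ge lv (TT k lv e) L).det := by
  have h0 := det_UU_sub (lN lv) e (fun _ => dK_ne he _) L (k := k)
  rw [← mul_one (ge lv (TT k lv e) L).det, ← h0]
  unfold ge
  rw [← Matrix.det_mul, dK]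
  congr 1
  ext1 i j
  rw [Matrix.mul_apply]
  simp only [XL, Matrix.submatrix_apply]
  rw [← TT_mul_apply (lN lv) e fun _ => dK_ne he _]
  have h2 := Finset.sum_subtype (Finset.univ.filter (fun l => L ≤ lN lv l))
    (p := fun l => L ≤ lN lv l) (F := inferInstance) (fun x => by simp)
    (fun l => TT k lv e i.1 l * UU k (lN lv) e l (e j.1))
  rw [← h2]
  symm
  apply Finset.sum_subset (Finset.filter_subset _ _)
  intro l _ hl
  have h3 : ¬ L ≤ lN lv l := by simpa using hl
  have h4 : L ≤ lN lv i.1 := i.2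
  rw [tri_TT he i.1 l (show (lv l : ℕ) < (lv i.1 : ℕ) from lt_of_lt_of_le (not_le.1 h3) h4),
    zero_mul]

lemma zz_eq (b : Fin s) : zz k lv e b = dK k (lN lv) b e / dK k (lN lv) ((b : ℕ) + 1) e := by
  rw [eq_div_iff (dK_ne he _), dK_eq_ge he, dK_eq_ge he, det_ge (tri_TT he)]
  rfl

lemma zz_ne (b : Fin s) : zz k lv e b ≠ 0 := by
  rw [zz_eq he]
  exact div_ne_zero (dK_ne he _) (dK_ne he _)

lemma HE_ne (q : ℕ) : HE k lv q e ≠ 0 :=
  Finset.prod_ne_zero_iff.2 fun _ _ => pow_ne_zero _ (dK_ne he _)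

lemma det_mem' {ι : Type} [Fintype ι] [DecidableEq ι] (S : Subalgebra k (FF k n m))
    (M : Matrix ι ι (FF k n m)) (h : ∀ i j, M i j ∈ S) : M.det ∈ S := by
  rw [Matrix.det_apply]
  refine Subalgebra.sum_mem _ fun σ _ => ?_
  rw [Units.smul_def]
  exact S.zsmul_mem (Subalgebra.prod_mem _ fun i _ => h _ _) _

lemma adj_mem' {ι : Type} [Fintype ι] [DecidableEq ι] (S : Subalgebra k (FF k n m))
    (M : Matrix ι ι (FF k n m)) (h : ∀ i j, M i j ∈ S) (i j : ι) : M.adjugate i j ∈ S := by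
  rw [Matrix.adjugate_apply]
  refine det_mem' he _ _ fun x y => ?_
  by_cases hx : x = j
  · subst hx
    rw [Matrix.updateRow_self, Pi.single_apply]
    split_ifs
    · exact S.one_mem
    · exact S.zero_mem
  · rw [Matrix.updateRow_ne hx]
    exact h _ _

lemma dK_ratio (q L : ℕ) (e' : Fin n → Fin m) :
    dK k (lN lv) L e' / dK k (lN lv) L e ∈ CC k lv q e := by
  rw [dK_div (lN lv) e (fun _ => dK_ne he _) L e', mul_div_cancel_left₀ _ (dK_ne (k := k) (lv := lv) he L)]
  exact det_mem' he _ _ fun i j => UU_mem q e _ _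

lemma HE_ratio (q : ℕ) (e' : Fin n → Fin m) : HE k lv q e' / HE k lv q e =
    ∏ b : Fin s, (dK k (lN lv) b e' / dK k (lN lv) b e) ^ q := by
  unfold HE
  rw [← Finset.prod_div_distrib]
  exact Finset.prod_congr rfl fun b _ => (div_pow _ _ _).symm

lemma rt' (q : ℕ) (e' : Fin n → Fin m) : HE k lv q e' / HE k lv q e ∈ CC k lv q e := by
  rw [HE_ratio he]
  exact Subalgebra.prod_mem _ fun b _ => Subalgebra.pow_mem _ (dK_ratio he q _ e') _

lemma dK_inv {q : ℕ} (hq : 0 < q) {e' : Fin n → Fin m} (he' : Function.Injective e') (L : ℕ) :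
    dK k (lN lv) L e / dK k (lN lv) L e' ∈
      Loc (CC k lv q e) (HE k lv q e' / HE k lv q e) := by
  classical
  by_cases hL : s ≤ L
  · rw [dK_last L hL, dK_last L hL, div_one]
    exact Subalgebra.one_mem _
  have hL' : L < s := by omega
  let c : Fin s := ⟨L, hL'⟩
  have h1 : dK k (lN lv) L e / dK k (lN lv) L e' =
      (dK k (lN lv) L e' / dK k (lN lv) L e) ^ (q - 1) *
      (∏ b ∈ Finset.univ.erase c, (dK k (lN lv) b e' / dK k (lN lv) b e) ^ q) *
      (HE k lv q e' / HE k lv q e)⁻¹ := by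
    have h2 : HE k lv q e' / HE k lv q e =
        (dK k (lN lv) L e' / dK k (lN lv) L e) ^ q *
        ∏ b ∈ Finset.univ.erase c, (dK k (lN lv) b e' / dK k (lN lv) b e) ^ q := by
      rw [HE_ratio he, ← Finset.mul_prod_erase Finset.univ _ (Finset.mem_univ c)]
    have h3 : ∏ b ∈ Finset.univ.erase c, (dK k (lN lv) b e' / dK k (lN lv) b e) ^ q ≠ 0 :=
      Finset.prod_ne_zero_iff.2 fun b _ => pow_ne_zero _ (div_ne_zero (dK_ne he' _) (dK_ne he _))
    have h4 : (dK k (lN lv) L e' / dK k (lN lv) L e) ≠ 0 :=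
      div_ne_zero (dK_ne he' _) (dK_ne he _)
    have h5 : dK k (lN lv) L e / dK k (lN lv) L e' =
        (dK k (lN lv) L e' / dK k (lN lv) L e)⁻¹ := (inv_div _ _).symm
    rw [h2, h5]
    generalize (dK k (lN lv) L e' / dK k (lN lv) L e) = a at h4
    generalize ∏ b ∈ Finset.univ.erase c, (dK k (lN lv) b e' / dK k (lN lv) b e) ^ q = P at h3
    obtain ⟨q', rfl⟩ := Nat.exists_eq_succ_of_ne_zero hq.ne'
    rw [Nat.succ_sub_one, pow_succ]
    field_simp
  rw [h1]
  refine Subalgebra.mul_mem _ (Subalgebra.mul_mem _ ?_ ?_) (inv_mem_loc _ _)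
  · exact le_loc _ _ (Subalgebra.pow_mem _ (dK_ratio he q _ e') _)
  · exact le_loc _ _ (Subalgebra.prod_mem _ fun b _ =>
      Subalgebra.pow_mem _ (dK_ratio he q _ e') _)

lemma UU_loc {q : ℕ} (hq : 0 < q) {e' : Fin n → Fin m} (he' : Function.Injective e')
    (i : Fin n) (j : Fin m) :
    UU k (lN lv) e' i j ∈ Loc (CC k lv q e) (HE k lv q e' / HE k lv q e) := by
  rw [UU_eq (lN lv) e' i j (dK_ne he' _)]
  have h1 : dK k (lN lv) (lN lv i) (Function.update e' i j) / dK k (lN lv) (lN lv i) e' =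
      (dK k (lN lv) (lN lv i) (Function.update e' i j) / dK k (lN lv) (lN lv i) e) *
      (dK k (lN lv) (lN lv i) e / dK k (lN lv) (lN lv i) e') := by
    have := dK_ne (k := k) (lv := lv) he (lN lv i)
    field_simp
  rw [h1]
  exact Subalgebra.mul_mem _ (le_loc _ _ (dK_ratio he q _ _)) (dK_inv he hq he' _)

omit he in
/-- The transition matrices. -/
noncomputable def QQe (k : Type u) [Field k] {n m s : ℕ} (lv : Fin n → Fin s)
    (e e' : Fin n → Fin m) : Matrix (Fin n) (Fin n) (FF k n m) :=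
  SS k (lN lv) e * TT k lv e'

lemma TT_Q (e' : Fin n → Fin m) : TT k lv e' = TT k lv e * QQe k lv e e' := by
  unfold QQe
  rw [← Matrix.mul_assoc, TT_SS he, Matrix.one_mul]

lemma tri_Q {e' : Fin n → Fin m} (he' : Function.Injective e') : Tri lv (QQe k lv e e') :=
  tri_SS'.mul (tri_TT he')

lemma TT_adj : TT k lv e = (XK k n m).submatrix id e *
    ((UU k (lN lv) e).submatrix id e).adjugate := by
  ext1 i l
  rw [Matrix.mul_apply]
  exact TT_eq (lN lv) e (fun _ => dK_ne he _) i l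

lemma Q_loc {q : ℕ} (hq : 0 < q) {e' : Fin n → Fin m} (he' : Function.Injective e')
    (i l : Fin n) : QQe k lv e e' i l ∈ Loc (CC k lv q e) (HE k lv q e' / HE k lv q e) := by
  have h1 : QQe k lv e e' = (UU k (lN lv) e).submatrix id e' *
      ((UU k (lN lv) e').submatrix id e').adjugate := by
    unfold QQe
    rw [TT_adj he', ← Matrix.mul_assoc]
    congr 1
  rw [h1, Matrix.mul_apply]
  refine Subalgebra.sum_mem _ fun j _ => Subalgebra.mul_mem _ ?_ ?_
  · exact le_loc _ _ (UU_mem q e _ _)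
  · exact adj_mem' he _ _ (fun x y => UU_loc he hq he' _ _) _ _

end fix

section char

variable {p : ℕ} [hp : Fact p.Prime] [CharP k p] {r : ℕ}

include hp

lemma charFF : CharP (FF k n m) p := charP_of_injective_algebraMap (R := k)
    (FaithfulSMul.algebraMap_injective k (FF k n m)) p

lemma mul_pow_apply (A : Matrix (Fin n) (Fin n) (FF k n m)) {α : Type}
    (B : Matrix (Fin n) α (FF k n m)) (i : Fin n) (j : α) :
    (A * B) i j ^ (p ^ r) = ∑ l, A i l ^ (p ^ r) * B l j ^ (p ^ r) := by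
  have hch : CharP (FF k n m) p := charFF
  rw [Matrix.mul_apply, sum_pow_char_pow]
  exact Finset.sum_congr rfl fun l _ => mul_pow _ _ _

variable {e : Fin n → Fin m} (he : Function.Injective e)

include he

lemma XK_pow_mem (i : Fin n) (j : Fin m) : XK k n m i j ^ (p ^ r) ∈ CC k lv (p ^ r) e := by
  rw [← TT_UU (lv := lv) he, mul_pow_apply]
  exact Subalgebra.sum_mem _ fun l _ => Subalgebra.mul_mem _ (TT_mem _ e _ _)
    (Subalgebra.pow_mem _ (UU_mem _ e _ _) _)

lemma gl' {e' : Fin n → Fin m} (he' : Function.Injective e') :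
    CC k lv (p ^ r) e' ≤ Loc (CC k lv (p ^ r) e) (HE k lv (p ^ r) e' / HE k lv (p ^ r) e) := by
  have hq : 0 < p ^ r := pow_pos hp.out.pos r
  refine CC_le (fun i j => UU_loc he hq he' i j) fun i l => ?_
  rw [TT_Q he e', mul_pow_apply]
  exact Subalgebra.sum_mem _ fun j _ => Subalgebra.mul_mem _ (le_loc _ _ (TT_mem _ e _ _))
    (Subalgebra.pow_mem _ (Q_loc he hq he' _ _) _)

omit he hp [CharP k p] in
/-- The indices in the blocks. -/
noncomputable def ep (lv : Fin n → Fin s) (b : Fin s) :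
    Fin (Fintype.card {i // lv i = b}) ≃ {i // lv i = b} :=
  (Fintype.equivFin {i // lv i = b}).symm

omit he hp [CharP k p] in
/-- The matrices of the blocks. -/
noncomputable def Ph (k : Type u) [Field k] {n m s : ℕ} (lv : Fin n → Fin s) (q : ℕ)
    (e : Fin n → Fin m) (b : Fin s) :
    Matrix (Fin (Fintype.card {i // lv i = b})) (Fin (Fintype.card {i // lv i = b}))
      (FF k n m) :=
  ((bl lv (TT k lv e) b).map fun a => a ^ q).submatrix (ep lv b) (ep lv b)

omit he in
lemma det_Ph (b : Fin s) : zz k lv e b ^ (p ^ r) = (Ph k lv (p ^ r) e b).det := by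
  have hch : CharP (FF k n m) p := charFF
  unfold Ph
  rw [Matrix.det_submatrix_equiv_self]
  have h1 : ((bl lv (TT k lv e) b).map fun a => a ^ (p ^ r)) =
      (iterateFrobenius (FF k n m) p r).mapMatrix (bl lv (TT k lv e) b) := by
    ext1 i j
    rw [RingHom.mapMatrix_apply, Matrix.map_apply, Matrix.map_apply, iterateFrobenius_def]
  rw [h1, ← RingHom.map_det, iterateFrobenius_def]
  rfl

omit he in
lemma Ph_ent (b : Fin s) : Ent (CC k lv (p ^ r) e) (Ph k lv (p ^ r) e b) := fun i j =>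
  TT_mem _ e _ _

lemma Ph_dom {e' : Fin n → Fin m} (he' : Function.Injective e') (b : Fin s) :
    Dom (Loc (CC k lv (p ^ r) e) (HE k lv (p ^ r) e' / HE k lv (p ^ r) e))
      (Ph k lv (p ^ r) e b) (Ph k lv (p ^ r) e' b) := by
  classical
  have hq : 0 < p ^ r := pow_pos hp.out.pos r
  have hch : CharP (FF k n m) p := charFF
  refine ⟨1, ((bl lv (QQe k lv e e') b).map fun a => a ^ (p ^ r)).submatrix (ep lv b) (ep lv b),
    Pool.Agent.R837.FS.ent_one, ?_, ?_⟩
  · intro i j
    exact Subalgebra.pow_mem _ (Q_loc he hq he' _ _) _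
  · rw [Matrix.one_mul]
    unfold Ph
    rw [TT_Q he e', bl_mul (tri_TT he) (tri_Q he he')]
    have h1 : ∀ (A B : Matrix {i // lv i = b} {i // lv i = b} (FF k n m)),
        ((A * B).map fun a => a ^ (p ^ r)) =
        (A.map fun a => a ^ (p ^ r)) * (B.map fun a => a ^ (p ^ r)) := by
      intro A B
      ext1 i j
      rw [Matrix.map_apply, Matrix.mul_apply, Matrix.mul_apply, sum_pow_char_pow]
      exact Finset.sum_congr rfl fun l _ => mul_pow _ _ _
    rw [h1, Matrix.submatrix_mul_equiv]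

lemma zz_ratio {e' : Fin n → Fin m} (he' : Function.Injective e') (b : Fin s) :
    zz k lv e' b / zz k lv e b ∈
      Loc (CC k lv (p ^ r) e) (HE k lv (p ^ r) e' / HE k lv (p ^ r) e) := by
  have hq : 0 < p ^ r := pow_pos hp.out.pos r
  have h1 : zz k lv e' b / zz k lv e b =
      (dK k (lN lv) b e' / dK k (lN lv) b e) *
      (dK k (lN lv) ((b : ℕ) + 1) e / dK k (lN lv) ((b : ℕ) + 1) e') := by
    rw [zz_eq he, zz_eq he']
    have := dK_ne (k := k) (lv := lv) he b
    have := dK_ne (k := k) (lv := lv) he ((b : ℕ) + 1)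
    have := dK_ne (k := k) (lv := lv) he' ((b : ℕ) + 1)
    field_simp
  rw [h1]
  exact Subalgebra.mul_mem _ (le_loc _ _ (dK_ratio he _ _ _)) (dK_inv he hq he' _)

end char

end fld

end Pool.Agent.N840.SK
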