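import Pool.Agent.N840.SK.Grp
import Pool.Agent.N840.SK.Fld

/-!
Descent: invariants lie in the field generated by the invariant coordinates.
-/

set_option autoImplicit false
set_option linter.unusedSectionVars false

open MvPolynomial Matrix

universe u

namespace Pool.Agent.N840.SK

open Pool.Agent.Y212.Fk Pool.Agent.Y212.Pk Pool.Agent.R837.FM
open scoped TensorProduct

section tens

/-- Descent for field extensions. -/
lemma mem_of_tens {E L : Type u} [Field E] [Field L] [Algebra E L] {x : L}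
    (h : (x ⊗ₜ[E] (1 : L)) = (1 : L) ⊗ₜ[E] x) : ∃ a : E, algebraMap E L a = x := by
  classical
  by_contra hx
  have h0 : x ∉ Submodule.span E ({1} : Set L) := by
    intro h1
    obtain ⟨a, ha⟩ := Submodule.mem_span_singleton.1 h1
    exact hx ⟨a, by rw [← ha, Algebra.smul_def, mul_one]⟩
  obtain ⟨f, hf, hf'⟩ := Submodule.exists_le_ker_of_notMem h0
  have h1 : f 1 = 0 := hf' (Submodule.mem_span_singleton_self 1)
  let B : L →ₗ[E] L →ₗ[E] L := (LinearMap.lsmul E L).comp f
  have h2 := congrArg (TensorProduct.lift B) h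
  rw [TensorProduct.lift.tmul, TensorProduct.lift.tmul] at h2
  change f x • (1 : L) = f 1 • x at h2
  rw [h1, zero_smul] at h2
  rcases smul_eq_zero.1 h2 with h3 | h3
  · exact hf h3
  · exact one_ne_zero h3

end tens

section desc

variable {k : Type u} [Field k] {n m s : ℕ} {lv : Fin n → Fin s} {p : ℕ} [hp : Fact p.Prime]
  [CharP k p] {r : ℕ} {S : Set (Fin s → ℕ)} {e : Fin n → Fin m} (he : Function.Injective e)

include hp he

lemma desc (E : IntermediateField k (FF k n m)) (h1 : ∀ i j, UU k (lN lv) e i j ∈ E)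
    (h2 : ∀ i l, TT k lv e i l ^ (p ^ r) ∈ E) (h3 : ∀ u ∈ S, ∏ b, zz k lv e b ^ u b ∈ E)
    (f : MvPolynomial (Fin n × Fin m) k)
    (hf : coact k n m f - C f ∈ kI k n m lv (p ^ r) S) :
    algebraMap (MvPolynomial (Fin n × Fin m) k) (FF k n m) f ∈ E := by
  classical
  set L := FF k n m with hL
  let ι : MvPolynomial (Fin n × Fin m) k →+* L := algebraMap _ _
  let R2 := L ⊗[E] L
  let i1 : L →+* R2 := (Algebra.TensorProduct.includeLeft : L →ₐ[E] L ⊗[E] L).toRingHom
  let i2 : L →+* R2 := (Algebra.TensorProduct.includeRight : L →ₐ[E] L ⊗[E] L).toRingHom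
  have hE : ∀ x ∈ E, i1 x = i2 x := by
    intro x hx
    have h4 : i1 x = algebraMap E R2 ⟨x, hx⟩ :=
      (Algebra.TensorProduct.includeLeft : L →ₐ[E] L ⊗[E] L).commutes ⟨x, hx⟩
    have h5 : i2 x = algebraMap E R2 ⟨x, hx⟩ :=
      (Algebra.TensorProduct.includeRight : L →ₐ[E] L ⊗[E] L).commutes ⟨x, hx⟩
    rw [h4, h5]
  suffices hkey : i1 (ι f) = i2 (ι f) by
    obtain ⟨a, ha⟩ := mem_of_tens (E := E) (L := L) (x := ι f) hkey
    rw [← show (algebraMap E L a) = ι f from ha]
    exact a.2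
  rcases subsingleton_or_nontrivial R2 with hsub | hnt
  · exact Subsingleton.elim _ _
  have hch : CharP L p := charFF
  have hch2 : CharP R2 p := charP_of_injective_ringHom i1.injective p
  -- the point of the group scheme
  let Gm : Matrix (Fin n) (Fin n) R2 := (TT k lv e).map i2 * (SS k (lN lv) e).map i1
  have htri : Tri lv Gm := ((tri_TT he).map i2).mul (tri_SS'.map i1)
  have hpow : ∀ i j, Gm i j ^ (p ^ r) = if i = j then 1 else 0 := by
    intro i j
    change (∑ l, i2 (TT k lv e i l) * i1 (SS k (lN lv) e l j)) ^ (p ^ r) = _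
    rw [sum_pow_char_pow]
    have h4 : ∀ l, (i2 (TT k lv e i l) * i1 (SS k (lN lv) e l j)) ^ (p ^ r) =
        i1 ((TT k lv e i l) ^ (p ^ r) * (SS k (lN lv) e l j) ^ (p ^ r)) := by
      intro l
      rw [mul_pow, ← map_pow, ← map_pow, ← hE _ (h2 i l), map_mul]
    rw [Finset.sum_congr rfl fun l _ => h4 l, ← map_sum, ← mul_pow_apply, TT_SS he,
      Matrix.one_apply]
    split_ifs
    · rw [one_pow, map_one]
    · rw [zero_pow (pow_pos hp.out.pos r).ne', map_zero]
  have hdetS : ∀ b, (bl lv (SS k (lN lv) e) b).det = (zz k lv e b)⁻¹ := by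
    intro b
    have h4 : (bl lv (TT k lv e) b).det * (bl lv (SS k (lN lv) e) b).det = 1 := by
      rw [← Matrix.det_mul, ← bl_mul (tri_TT he) tri_SS', TT_SS he, bl_one, Matrix.det_one]
    exact eq_inv_of_mul_eq_one_right h4
  have hchar : ∀ u ∈ S, ∏ b, (bl lv Gm b).det ^ u b = 1 := by
    intro u hu
    have h4 : ∀ b, (bl lv Gm b).det = i2 (zz k lv e b) * i1 (zz k lv e b)⁻¹ := by
      intro b
      change (bl lv ((TT k lv e).map i2 * (SS k (lN lv) e).map i1) b).det = _
      rw [bl_mul ((tri_TT he).map i2) (tri_SS'.map i1), Matrix.det_mul, det_bl_map, det_bl_map,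
        hdetS]
      rfl
    have h5 : ∏ b, (bl lv Gm b).det ^ u b =
        i2 (∏ b, zz k lv e b ^ u b) * i1 (∏ b, zz k lv e b ^ u b)⁻¹ := by
      rw [← Finset.prod_inv_distrib, map_prod, map_prod, ← Finset.prod_mul_distrib]
      refine Finset.prod_congr rfl fun b _ => ?_
      rw [h4, mul_pow, map_pow, ← map_pow i1, inv_pow]
    rw [h5, ← hE _ (h3 u hu), ← map_mul, mul_inv_cancel₀, map_one]
    exact Finset.prod_ne_zero_iff.2 fun b _ => pow_ne_zero _ (zz_ne he b)
  -- the evaluation
  let Ψ : MM k n m →+* R2 := eval₂Hom (i1.comp ι) fun u => Gm u.1 u.2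
  have hΨX : ∀ u, Ψ (X u) = Gm u.1 u.2 := fun u => eval₂Hom_X' _ _ _
  have hΨC : ∀ g, Ψ (C g) = i1 (ι g) := fun g => eval₂Hom_C _ _ _
  have hΨG : (GM k n m).map Ψ = Gm := by
    ext1 i j
    exact hΨX (i, j)
  have hI : kI k n m lv (p ^ r) S ≤ RingHom.ker Ψ := by
    unfold kI
    rw [Ideal.span_le]
    rintro _ ((⟨u, rfl⟩ | ⟨u, hu, rfl⟩) | ⟨u, hu, rfl⟩)
    · change Ψ _ = 0
      rw [map_sub, map_pow, hΨX, hpow]
      split_ifs
      · rw [map_one, sub_self]
      · rw [map_zero, sub_self]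
    · change Ψ _ = 0
      rw [hΨX]
      exact htri _ _ hu
    · change Ψ _ = 0
      rw [map_sub, map_one, map_prod, sub_eq_zero, ← hchar u hu]
      refine Finset.prod_congr rfl fun b _ => ?_
      rw [map_pow, ← det_bl_map, hΨG]
  have hcoact : Ψ.comp (coact k n m : _ →+* _) = i2.comp ι := by
    refine MvPolynomial.ringHom_ext (fun a => ?_) fun u => ?_
    · change Ψ (coact k n m (algebraMap _ _ a)) = i2 (ι (C a))
      rw [AlgHom.commutes]
      change Ψ (C (C a)) = _
      rw [hΨC]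
      have h4 : ι (C a) = algebraMap k L a :=
        (IsScalarTower.algebraMap_apply k (MvPolynomial (Fin n × Fin m) k) L a).symm
      rw [h4]
      exact hE _ (E.algebraMap_mem a)
    · change Ψ (coact k n m (X u)) = i2 (ι (X u))
      have h4 : coact k n m (X u) = ∑ j, X (u.1, j) * C (X (j, u.2)) := by simp [coact]
      rw [h4, map_sum]
      have h5 : ∀ j, Ψ (X (u.1, j) * C (X (j, u.2))) =
          Gm u.1 j * (XK k n m).map i1 j u.2 := by
        intro j
        rw [map_mul, hΨX, hΨC]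
        rfl
      rw [Finset.sum_congr rfl fun j _ => h5 j, ← Matrix.mul_apply]
      have h6 : Gm * (XK k n m).map i1 = (XK k n m).map i2 := by
        have h7 : (SS k (lN lv) e).map i1 * (XK k n m).map i1 = (UU k (lN lv) e).map i1 :=
          (Matrix.map_mul (f := i1)).symm
        have h8 : (UU k (lN lv) e).map i1 = (UU k (lN lv) e).map i2 := by
          ext1 i j
          exact hE _ (h1 i j)
        change (TT k lv e).map i2 * (SS k (lN lv) e).map i1 * (XK k n m).map i1 = _
        rw [Matrix.mul_assoc, h7, h8, ← Matrix.map_mul, TT_UU he]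
      rw [h6]
      rfl
  have h4 : Ψ (coact k n m f - C f) = 0 := hI hf
  rw [map_sub, sub_eq_zero, hΨC] at h4
  rw [← h4]
  exact RingHom.congr_fun hcoact f

end desc

end Pool.Agent.N840.SK
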