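import Pool.Agent.N840.SK.Blk

/-!
The group schemes between the Frobenius kernels of a parabolic group and of its derived group:
semi-invariants.
-/

set_option autoImplicit false
set_option linter.unusedSectionVars false

open MvPolynomial Matrix

universe u

namespace Pool.Agent.N840.SK

open Pool.Agent.Y212.Fk Pool.Agent.Y212.Pk

section defs

variable (k : Type u) [Field k] (n m : ℕ) {s : ℕ} (lv : Fin n → Fin s)

/-- The ring `k[X][G]`. -/
abbrev MM := MvPolynomial (Fin n × Fin n) (MvPolynomial (Fin n × Fin m) k)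

/-- The generic group element. -/
noncomputable def GM : Matrix (Fin n) (Fin n) (MM k n m) := Matrix.of fun i j => X (i, j)

/-- The ideal. -/
noncomputable def kI (q : ℕ) (S : Set (Fin s → ℕ)) : Ideal (MM k n m) :=
  Ideal.span (((Set.range fun u => X u ^ q - if u.1 = u.2 then 1 else 0) ∪
    ((fun u => X u) '' {u | lv u.2 < lv u.1})) ∪
    {f | ∃ u ∈ S, f = ∏ b, (bl lv (GM k n m) b).det ^ u b - 1})

/-- The ring of the group scheme. -/
def RR (q : ℕ) (S : Set (Fin s → ℕ)) : Type u := MM k n m ⧸ kI k n m lv q S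

noncomputable instance instRR (q : ℕ) (S : Set (Fin s → ℕ)) : CommRing (RR k n m lv q S) :=
  Ideal.Quotient.commRing _

/-- The quotient map. -/
noncomputable def qm (q : ℕ) (S : Set (Fin s → ℕ)) : MM k n m →+* RR k n m lv q S :=
  Ideal.Quotient.mk (kI k n m lv q S)

lemma qm_eq (q : ℕ) (S : Set (Fin s → ℕ)) {a b : MM k n m} :
    qm k n m lv q S a = qm k n m lv q S b ↔ a - b ∈ kI k n m lv q S := Ideal.Quotient.eq

/-- The coaction. -/
noncomputable def act (q : ℕ) (S : Set (Fin s → ℕ)) :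
    MvPolynomial (Fin n × Fin m) k →+* RR k n m lv q S :=
  (qm k n m lv q S).comp (coact k n m : _ →+* _)

/-- The constants. -/
noncomputable def cst (q : ℕ) (S : Set (Fin s → ℕ)) :
    MvPolynomial (Fin n × Fin m) k →+* RR k n m lv q S :=
  (qm k n m lv q S).comp C

/-- The generic group element over the ring of the group scheme. -/
noncomputable def GR (q : ℕ) (S : Set (Fin s → ℕ)) : Matrix (Fin n) (Fin n) (RR k n m lv q S) :=
  (GM k n m).map (qm k n m lv q S)

variable {k n m lv}

section lem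

variable {q : ℕ} {S : Set (Fin s → ℕ)}

lemma tri_GR : Tri lv (GR k n m lv q S) := by
  intro i j hij
  change qm k n m lv q S (X (i, j)) = 0
  rw [← map_zero (qm k n m lv q S), qm_eq, sub_zero]
  exact Ideal.subset_span (Or.inl (Or.inr ⟨(i, j), hij, rfl⟩))

lemma pow_GR (i j : Fin n) : GR k n m lv q S i j ^ q = if i = j then 1 else 0 := by
  change qm k n m lv q S (X (i, j)) ^ q = _
  have h1 : (X (i, j) ^ q - if i = j then 1 else 0 : MM k n m) ∈ kI k n m lv q S :=
    Ideal.subset_span (Or.inl (Or.inl ⟨(i, j), rfl⟩))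
  rw [← map_pow, (qm_eq k n m lv q S).2 h1]
  split_ifs
  · exact map_one _
  · exact map_zero _

lemma char_GR (u : Fin s → ℕ) (hu : u ∈ S) : ∏ b, (bl lv (GR k n m lv q S) b).det ^ u b = 1 := by
  have h1 : (∏ b, (bl lv (GM k n m) b).det ^ u b - 1 : MM k n m) ∈ kI k n m lv q S :=
    Ideal.subset_span (Or.inr ⟨u, hu, rfl⟩)
  have h2 := (qm_eq k n m lv q S).2 h1
  rw [map_one, map_prod] at h2
  rw [← h2]
  refine Finset.prod_congr rfl fun b _ => ?_
  rw [map_pow]
  unfold GR
  rw [det_bl_map]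

lemma act_X (i : Fin n) (l : Fin m) : act k n m lv q S (X (i, l)) =
    ∑ j, GR k n m lv q S i j * cst k n m lv q S (X (j, l)) := by
  change qm k n m lv q S (coact k n m (X (i, l))) = _
  have h1 : coact k n m (X (i, l)) = ∑ j, X (i, j) * C (X (j, l)) := by simp [coact]
  rw [h1, map_sum]
  refine Finset.sum_congr rfl fun j _ => ?_
  rw [map_mul]
  rfl

lemma act_mn (L : ℕ) (e : Fin n → Fin m) : act k n m lv q S (mn k (lN lv) L e) =
    (ge lv (GR k n m lv q S) L).det * cst k n m lv q S (mn k (lN lv) L e) := by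
  rw [mn, RingHom.map_det, RingHom.map_det, ← Matrix.det_mul]
  congr 1
  ext1 i j
  rw [Matrix.mul_apply]
  change act k n m lv q S (X (i.1, e j.1)) = ∑ l : Rw (lN lv) L,
    GR k n m lv q S i.1 l.1 * cst k n m lv q S (X (l.1, e j.1))
  rw [act_X]
  have h2 := Finset.sum_subtype (Finset.univ.filter (fun l => L ≤ lN lv l))
    (p := fun l => L ≤ lN lv l) (F := inferInstance) (fun x => by simp)
    (fun l => GR k n m lv q S i.1 l * cst k n m lv q S (X (l, e j.1)))
  rw [← h2]
  symm
  apply Finset.sum_subset (Finset.filter_subset _ _)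
  intro l _ hl
  have h3 : ¬ L ≤ lN lv l := by simpa using hl
  have h4 : L ≤ lN lv i.1 := i.2
  rw [tri_GR i.1 l (show (lv l : ℕ) < (lv i.1 : ℕ) from lt_of_lt_of_le (not_le.1 h3) h4), zero_mul]

end lem

section char

variable {p : ℕ} [hp : Fact p.Prime] [CharP k p] {r : ℕ} {S : Set (Fin s → ℕ)}

include hp

lemma det_bl_pow (b : Fin s) : (bl lv (GR k n m lv (p ^ r) S) b).det ^ (p ^ r) = 1 := by
  have h0 : (bl lv (GR k n m lv (p ^ r) S) b).det =
      qm k n m lv (p ^ r) S (bl lv (GM k n m) b).det := by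
    unfold GR
    rw [det_bl_map]
  rw [h0, ← map_pow, ← iterateFrobenius_def, RingHom.map_det, RingHom.map_det,
    ← Matrix.det_one (n := {i // lv i = b}) (R := RR k n m lv (p ^ r) S)]
  congr 1
  ext1 i j
  change qm k n m lv (p ^ r) S (iterateFrobenius (MM k n m) p r
    (X (i.1, j.1))) = _
  rw [iterateFrobenius_def, map_pow, Matrix.one_apply]
  have h1 := pow_GR (k := k) (n := n) (m := m) (lv := lv) (q := p ^ r) (S := S) i.1 j.1
  have h2 : qm k n m lv (p ^ r) S (X (i.1, j.1)) = GR k n m lv (p ^ r) S i.1 j.1 := rfl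
  rw [h2, h1]
  simp only [Subtype.ext_iff]

/-- The determinants of the blocks as units. -/
noncomputable def Ub (k : Type u) [Field k] [CharP k p] (n m : ℕ) (lv : Fin n → Fin s) (r : ℕ)
    (S : Set (Fin s → ℕ)) (b : Fin s) : (RR k n m lv (p ^ r) S)ˣ :=
  Units.ofPowEqOne (bl lv (GR k n m lv (p ^ r) S) b).det (p ^ r) (det_bl_pow b)
    (pow_pos hp.out.pos r).ne'

lemma Ub_val (b : Fin s) : (Ub (p := p) k n m lv r S b : RR k n m lv (p ^ r) S) =
    (bl lv (GR k n m lv (p ^ r) S) b).det := rfl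

/-- The characters. -/
noncomputable def ch (k : Type u) [Field k] [CharP k p] (n m : ℕ) (lv : Fin n → Fin s) (r : ℕ)
    (S : Set (Fin s → ℕ)) (c : Fin s → ℤ) : (RR k n m lv (p ^ r) S)ˣ :=
  ∏ b, Ub (p := p) k n m lv r S b ^ c b

lemma ch_add (c c' : Fin s → ℤ) : ch (p := p) k n m lv r S (c + c') =
    ch (p := p) k n m lv r S c * ch (p := p) k n m lv r S c' := by
  unfold ch
  rw [← Finset.prod_mul_distrib]
  exact Finset.prod_congr rfl fun b _ => by rw [Pi.add_apply, _root_.zpow_add]

lemma ch_zero : ch (p := p) k n m lv r S 0 = 1 := by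
  unfold ch
  exact Finset.prod_eq_one fun b _ => by rw [Pi.zero_apply, zpow_zero]

/-- The lattice of the trivial characters. -/
def KK (s q : ℕ) (S : Set (Fin s → ℕ)) : AddSubgroup (Fin s → ℤ) :=
  AddSubgroup.closure ({c | ∃ u ∈ S, c = fun b => (u b : ℤ)} ∪
    Set.range fun b : Fin s => Pi.single b (q : ℤ))

lemma ch_KK (c : Fin s → ℤ) (hc : c ∈ KK s (p ^ r) S) : ch (p := p) k n m lv r S c = 1 := by
  refine AddSubgroup.closure_induction (p := fun c _ => ch (p := p) k n m lv r S c = 1)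
    ?_ ?_ ?_ ?_ hc
  · rintro c (⟨u, hu, rfl⟩ | ⟨b, rfl⟩)
    · apply Units.ext
      have h1 := char_GR (k := k) (n := n) (m := m) (lv := lv) (q := p ^ r) (S := S) u hu
      unfold ch
      rw [Units.coe_prod, Units.val_one, ← h1]
      refine Finset.prod_congr rfl fun b _ => ?_
      rw [zpow_natCast, Units.val_pow_eq_pow_val, Ub_val]
    · unfold ch
      rw [Finset.prod_eq_single b]
      · change Ub (p := p) k n m lv r S b ^ ((Pi.single b ((p ^ r : ℕ) : ℤ) : Fin s → ℤ) b) = 1
        rw [Pi.single_eq_same, zpow_natCast]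
        apply Units.ext
        rw [Units.val_pow_eq_pow_val, Ub_val, det_bl_pow, Units.val_one]
      · intro b' _ hb'
        change Ub (p := p) k n m lv r S b' ^ ((Pi.single b ((p ^ r : ℕ) : ℤ) : Fin s → ℤ) b') = 1
        rw [Pi.single_eq_of_ne hb', zpow_zero]
      · intro h
        exact absurd (Finset.mem_univ _) h
  · exact ch_zero
  · intro c c' _ _ h1 h2
    rw [ch_add, h1, h2, one_mul]
  · intro c _ h1
    have h2 : ch (p := p) k n m lv r S c * ch (p := p) k n m lv r S (-c) = 1 := by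
      rw [← ch_add, add_neg_cancel, ch_zero]
    rwa [h1, one_mul] at h2

omit hp in
lemma nsmul_KK (q : ℕ) (c : Fin s → ℤ) : q • c ∈ KK s q S := by
  classical
  have h1 : q • c = ∑ b, c b • (Pi.single b (q : ℤ) : Fin s → ℤ) := by
    funext b
    rw [Finset.sum_apply, Finset.sum_eq_single b]
    · rw [Pi.smul_apply, Pi.smul_apply, Pi.single_eq_same, nsmul_eq_mul, smul_eq_mul, mul_comm]
    · intro b' _ hb'
      rw [Pi.smul_apply, Pi.single_eq_of_ne (Ne.symm hb'), smul_zero]
    · intro h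
      exact absurd (Finset.mem_univ _) h
  rw [h1]
  refine (KK s q S).sum_mem fun b _ => (KK s q S).zsmul_mem ?_ _
  exact AddSubgroup.subset_closure (Or.inr ⟨b, rfl⟩)

/-- The semi-invariants of a weight. -/
noncomputable def semi (k : Type u) [Field k] [CharP k p] (n m : ℕ) (lv : Fin n → Fin s) (r : ℕ)
    (S : Set (Fin s → ℕ)) (c : Fin s → ℤ) : Submodule k (MvPolynomial (Fin n × Fin m) k) where
  carrier := {f | act k n m lv (p ^ r) S f =
    (ch (p := p) k n m lv r S c : RR k n m lv (p ^ r) S) * cst k n m lv (p ^ r) S f}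
  add_mem' := by
    intro f f' hf hf'
    change act k n m lv (p ^ r) S (f + f') = _
    rw [map_add, map_add, mul_add, show act k n m lv (p ^ r) S f = _ from hf,
      show act k n m lv (p ^ r) S f' = _ from hf']
  zero_mem' := by
    change act k n m lv (p ^ r) S 0 = _
    rw [map_zero, map_zero, mul_zero]
  smul_mem' := by
    intro a f hf
    change act k n m lv (p ^ r) S (a • f) = _
    have h1 : act k n m lv (p ^ r) S (C a) = cst k n m lv (p ^ r) S (C a) := by
      change qm k n m lv (p ^ r) S (coact k n m (algebraMap _ _ a)) = _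
      rw [AlgHom.commutes]
      rfl
    rw [MvPolynomial.smul_eq_C_mul, map_mul, map_mul, h1,
      show act k n m lv (p ^ r) S f = _ from hf]
    ring

lemma mem_semi {c : Fin s → ℤ} {f : MvPolynomial (Fin n × Fin m) k} :
    f ∈ semi (p := p) k n m lv r S c ↔ act k n m lv (p ^ r) S f =
    (ch (p := p) k n m lv r S c : RR k n m lv (p ^ r) S) * cst k n m lv (p ^ r) S f := Iff.rfl

lemma semi_mul {c c' : Fin s → ℤ} {f f' : MvPolynomial (Fin n × Fin m) k}
    (hf : f ∈ semi (p := p) k n m lv r S c) (hf' : f' ∈ semi (p := p) k n m lv r S c') :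
    f * f' ∈ semi (p := p) k n m lv r S (c + c') := by
  rw [mem_semi] at hf hf' ⊢
  rw [map_mul, map_mul, hf, hf', ch_add, Units.val_mul]
  ring

lemma one_semi {c : Fin s → ℤ} (hc : c ∈ KK s (p ^ r) S) :
    (1 : MvPolynomial (Fin n × Fin m) k) ∈ semi (p := p) k n m lv r S c := by
  rw [mem_semi, ch_KK c hc, map_one, map_one, Units.val_one, one_mul]

lemma mn_semi (L : ℕ) (e : Fin n → Fin m) :
    mn k (lN lv) L e ∈ semi (p := p) k n m lv r S (om s L) := by
  rw [mem_semi, act_mn, ge_eq_prod tri_GR (Ub (p := p) k n m lv r S) (fun b => Ub_val b) L]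
  rfl

lemma pow_semi (u : Fin n × Fin m) :
    (X u : MvPolynomial (Fin n × Fin m) k) ^ (p ^ r) ∈ semi (p := p) k n m lv r S 0 := by
  rw [mem_semi, ch_zero, Units.val_one, one_mul]
  change qm k n m lv (p ^ r) S (coact k n m (X u ^ (p ^ r))) =
    qm k n m lv (p ^ r) S (C (X u ^ (p ^ r)))
  rw [qm_eq, map_pow, map_pow]
  have h1 : coact k n m (X u) = ∑ l, X (u.1, l) * C (X (l, u.2)) := by
    simp [coact]
  have h2 : (C (X u) : MvPolynomial (Fin n × Fin n) (MvPolynomial (Fin n × Fin m) k))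
      ^ (p ^ r) = ∑ l, (if u.1 = l then 1 else 0) * C (X (l, u.2)) ^ (p ^ r) := by
    simp
  rw [h1, sum_pow_char_pow, h2, ← Finset.sum_sub_distrib]
  refine Ideal.sum_mem _ fun l _ => ?_
  rw [mul_pow, ← sub_mul]
  exact Ideal.mul_mem_right _ _ (Ideal.subset_span (Or.inl (Or.inl ⟨(u.1, l), rfl⟩)))

end char

end defs

end Pool.Agent.N840.SK
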