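import Pool.Agent.N840.SK.Desc
import Pool.Agent.N840.SK.Abs

/-!
The resolution of the quotients by the group schemes between the Frobenius kernels of a parabolic
group and of its derived group.
-/

set_option autoImplicit false
set_option linter.unusedSectionVars false

open MvPolynomial Matrix AlgebraicGeometry CategoryTheory

universe u

namespace Pool.Agent.N840.SK

open Pool.Agent.Y212.Fk Pool.Agent.Y212.Pk Pool.Agent.R837.FM
open Pool.Agent.R837.FS (Ent Dom)

section inv

variable (k : Type u) [Field k] (n m : ℕ) {s : ℕ} (lv : Fin n → Fin s) (q : ℕ)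
  (S : Set (Fin s → ℕ))

/-- The algebra of invariants. -/
noncomputable def InvS : Subalgebra k (MvPolynomial (Fin n × Fin m) k) where
  carrier := {f | coact k n m f - C f ∈ kI k n m lv q S}
  mul_mem' := by
    intro a b ha hb
    have h : coact k n m (a * b) - C (a * b) =
        coact k n m a * (coact k n m b - C b) + C b * (coact k n m a - C a) := by
      rw [map_mul, map_mul]; ring
    change coact k n m (a * b) - C (a * b) ∈ kI k n m lv q S
    rw [h]
    exact Ideal.add_mem _ (Ideal.mul_mem_left _ _ hb) (Ideal.mul_mem_left _ _ ha)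
  add_mem' := by
    intro a b ha hb
    have h : coact k n m (a + b) - C (a + b) =
        (coact k n m a - C a) + (coact k n m b - C b) := by
      rw [map_add, map_add]; ring
    change coact k n m (a + b) - C (a + b) ∈ kI k n m lv q S
    rw [h]
    exact Ideal.add_mem _ ha hb
  algebraMap_mem' := by
    intro a
    change coact k n m (algebraMap _ _ a) - C (algebraMap _ _ a) ∈ kI k n m lv q S
    rw [AlgHom.commutes]
    have h : (algebraMap k (MvPolynomial (Fin n × Fin n) (MvPolynomial (Fin n × Fin m) k))) a =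
      C (algebraMap k (MvPolynomial (Fin n × Fin m) k) a) := rfl
    rw [h, sub_self]
    exact Ideal.zero_mem _

end inv

section top

variable {k : Type u} [Field k] {n m s : ℕ} {lv : Fin n → Fin s} {p : ℕ} [hp : Fact p.Prime]
  [CharP k p] {r : ℕ} {S : Set (Fin s → ℕ)}

include hp

lemma mem_InvS {f : MvPolynomial (Fin n × Fin m) k} :
    f ∈ InvS k n m lv (p ^ r) S ↔ f ∈ semi (p := p) k n m lv r S 0 := by
  rw [mem_semi, ch_zero, Units.val_one, one_mul]
  exact (qm_eq k n m lv (p ^ r) S).symm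

/-- The embedding of the invariants. -/
noncomputable def gI (k : Type u) [Field k] (n m : ℕ) {s : ℕ} (lv : Fin n → Fin s) (q : ℕ)
    (S : Set (Fin s → ℕ)) : InvS k n m lv q S →ₐ[k] FF k n m :=
  (IsScalarTower.toAlgHom k (MvPolynomial (Fin n × Fin m) k) (FF k n m)).comp
    (InvS k n m lv q S).val

omit hp [CharP k p] in
lemma gI_inj {q : ℕ} : Function.Injective (gI k n m lv q S) := by
  intro a b hab
  apply Subtype.ext
  exact IsFractionRing.injective (MvPolynomial (Fin n × Fin m) k) (FF k n m) hab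

/-- The graded pieces in the function field. -/
noncomputable def D0 (k : Type u) [Field k] [CharP k p] (n m : ℕ) (lv : Fin n → Fin s) (r : ℕ)
    (S : Set (Fin s → ℕ)) (c : Fin s → ℤ) : Submodule k (FF k n m) :=
  (semi (p := p) k n m lv r S c).map
    (IsScalarTower.toAlgHom k (MvPolynomial (Fin n × Fin m) k) (FF k n m)).toLinearMap

lemma mem_D0 {c : Fin s → ℤ} {x : FF k n m} : x ∈ D0 (p := p) k n m lv r S c ↔
    ∃ f ∈ semi (p := p) k n m lv r S c,
      algebraMap (MvPolynomial (Fin n × Fin m) k) (FF k n m) f = x := Iff.rfl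

lemma D0_inv {x : FF k n m} (hx : x ∈ D0 (p := p) k n m lv r S 0) :
    ∃ a, x = gI k n m lv (p ^ r) S a := by
  obtain ⟨f, hf, rfl⟩ := mem_D0.1 hx
  exact ⟨⟨f, mem_InvS.2 hf⟩, rfl⟩

lemma gI_D0 (a : InvS k n m lv (p ^ r) S) :
    gI k n m lv (p ^ r) S a ∈ D0 (p := p) k n m lv r S 0 :=
  mem_D0.2 ⟨a.1, mem_InvS.1 a.2, rfl⟩

lemma D0_mul {c c' : Fin s → ℤ} {x y : FF k n m} (hx : x ∈ D0 (p := p) k n m lv r S c)
    (hy : y ∈ D0 (p := p) k n m lv r S c') : x * y ∈ D0 (p := p) k n m lv r S (c + c') := by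
  obtain ⟨f, hf, rfl⟩ := mem_D0.1 hx
  obtain ⟨f', hf', rfl⟩ := mem_D0.1 hy
  exact mem_D0.2 ⟨f * f', semi_mul hf hf', map_mul _ _ _⟩

lemma D0_one {c : Fin s → ℤ} (hc : c ∈ KK s (p ^ r) S) :
    (1 : FF k n m) ∈ D0 (p := p) k n m lv r S c :=
  mem_D0.2 ⟨1, one_semi hc, map_one _⟩

lemma D0_shift {c c' : Fin s → ℤ} (hc : c - c' ∈ KK s (p ^ r) S) {x : FF k n m}
    (hx : x ∈ D0 (p := p) k n m lv r S c) : x ∈ D0 (p := p) k n m lv r S c' := by
  have h1 := D0_mul hx (D0_one (k := k) (n := n) (m := m) (lv := lv)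
    ((KK s (p ^ r) S).neg_mem hc))
  rw [mul_one] at h1
  have h2 : c + -(c - c') = c' := by abel
  rwa [h2] at h1

lemma D0_pow {c : Fin s → ℤ} {x : FF k n m} (hx : x ∈ D0 (p := p) k n m lv r S c) (N : ℕ) :
    x ^ N ∈ D0 (p := p) k n m lv r S (N • c) := by
  induction N with
  | zero =>
    rw [pow_zero, zero_smul]
    exact D0_one (KK s (p ^ r) S).zero_mem
  | succ N ih =>
    rw [pow_succ, succ_nsmul]
    exact D0_mul ih hx

lemma D0_prod {α : Type} (t : Finset α) (c : α → Fin s → ℤ) (x : α → FF k n m)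
    (hx : ∀ a ∈ t, x a ∈ D0 (p := p) k n m lv r S (c a)) :
    ∏ a ∈ t, x a ∈ D0 (p := p) k n m lv r S (∑ a ∈ t, c a) := by
  classical
  induction t using Finset.induction_on with
  | empty =>
    rw [Finset.prod_empty, Finset.sum_empty]
    exact D0_one (KK s (p ^ r) S).zero_mem
  | insert a t ha ih =>
    rw [Finset.prod_insert ha, Finset.sum_insert ha]
    exact D0_mul (hx a (Finset.mem_insert_self a t))
      (ih fun b hb => hx b (Finset.mem_insert_of_mem hb))

lemma dK_D0 (L : ℕ) (e : Fin n → Fin m) :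
    dK k (lN lv) L e ∈ D0 (p := p) k n m lv r S (om s L) :=
  mem_D0.2 ⟨mn k (lN lv) L e, mn_semi L e, (dK_eq (lN lv) L e).symm⟩

lemma dKq_D0 (L : ℕ) (e : Fin n → Fin m) :
    dK k (lN lv) L e ^ (p ^ r) ∈ D0 (p := p) k n m lv r S 0 := by
  refine D0_shift ?_ (D0_pow (dK_D0 L e) (p ^ r))
  rw [sub_zero]
  exact nsmul_KK _ _

lemma XK_D0 (i : Fin n) (j : Fin m) :
    XK k n m i j ^ (p ^ r) ∈ D0 (p := p) k n m lv r S 0 :=
  mem_D0.2 ⟨X (i, j) ^ (p ^ r), pow_semi (i, j), by rw [map_pow]; rfl⟩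

lemma HE_D0 (e : Fin n → Fin m) : HE k lv (p ^ r) e ∈ D0 (p := p) k n m lv r S 0 := by
  have h1 := D0_prod (S := S) (Finset.univ : Finset (Fin s)) (fun _ => 0)
    (fun b => dK k (lN lv) b e ^ (p ^ r)) fun b _ => dKq_D0 (lv := lv) (b : ℕ) e
  rw [Finset.sum_const_zero] at h1
  exact h1

/-- The localized graded pieces. -/
def LL (k : Type u) [Field k] [CharP k p] (n m : ℕ) (lv : Fin n → Fin s) (r : ℕ)
    (S : Set (Fin s → ℕ)) (e : Fin n → Fin m) (c : Fin s → ℤ) (x : FF k n m) : Prop :=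
  ∃ M : ℕ, HE k lv (p ^ r) e ^ M * x ∈ D0 (p := p) k n m lv r S c

lemma LL_of {e : Fin n → Fin m} {c : Fin s → ℤ} {x : FF k n m}
    (hx : x ∈ D0 (p := p) k n m lv r S c) : LL (p := p) k n m lv r S e c x :=
  ⟨0, by rw [pow_zero, one_mul]; exact hx⟩

lemma LL_mul {e : Fin n → Fin m} {c c' : Fin s → ℤ} {x y : FF k n m}
    (hx : LL (p := p) k n m lv r S e c x) (hy : LL (p := p) k n m lv r S e c' y) :
    LL (p := p) k n m lv r S e (c + c') (x * y) := by
  obtain ⟨M, hM⟩ := hx
  obtain ⟨M', hM'⟩ := hy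
  refine ⟨M + M', ?_⟩
  have h1 : HE k lv (p ^ r) e ^ (M + M') * (x * y) =
      (HE k lv (p ^ r) e ^ M * x) * (HE k lv (p ^ r) e ^ M' * y) := by ring
  rw [h1]
  exact D0_mul hM hM'

lemma dK_inv_LL {e : Fin n → Fin m} (he : Function.Injective e) (L : ℕ) :
    LL (p := p) k n m lv r S e (-om s L) (dK k (lN lv) L e)⁻¹ := by
  classical
  by_cases hL : s ≤ L
  · rw [dK_last L hL, om_last hL, inv_one, neg_zero]
    exact LL_of (D0_one (KK s (p ^ r) S).zero_mem)
  have hL' : L < s := by omega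
  have hq : 0 < p ^ r := pow_pos hp.out.pos r
  let c : Fin s := ⟨L, hL'⟩
  refine ⟨1, ?_⟩
  have h1 : HE k lv (p ^ r) e ^ 1 * (dK k (lN lv) L e)⁻¹ =
      dK k (lN lv) L e ^ (p ^ r - 1) *
      ∏ b ∈ Finset.univ.erase c, dK k (lN lv) b e ^ (p ^ r) := by
    unfold HE
    rw [pow_one, ← Finset.mul_prod_erase Finset.univ _ (Finset.mem_univ c)]
    change dK k (lN lv) L e ^ (p ^ r) * _ * _ = _
    have h2 : dK k (lN lv) L e ^ (p ^ r) = dK k (lN lv) L e ^ (p ^ r - 1) *
        dK k (lN lv) L e := by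
      rw [← pow_succ, Nat.sub_add_cancel hq]
    have h3 := dK_ne (k := k) (lv := lv) he L
    rw [h2]
    field_simp
  rw [h1]
  have h4 := D0_pow (dK_D0 (k := k) (lv := lv) (S := S) (r := r) (p := p) L e) (p ^ r - 1)
  have h5 := D0_prod (S := S) (Finset.univ.erase c) (fun _ => 0)
    (fun b => dK k (lN lv) b e ^ (p ^ r)) fun b _ => dKq_D0 (lv := lv) (b : ℕ) e
  rw [Finset.sum_const_zero] at h5
  refine D0_shift ?_ (D0_mul h4 h5)
  have h6 : (p ^ r - 1) • om s L + 0 - -om s L = (p ^ r) • om s L := by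
    rw [add_zero, sub_neg_eq_add, ← succ_nsmul, Nat.sub_add_cancel hq]
  rw [h6]
  exact nsmul_KK _ _

lemma LL_loc {e : Fin n → Fin m} (he : Function.Injective e) {x : FF k n m}
    (hx : LL (p := p) k n m lv r S e 0 x) :
    x ∈ Loc (gI k n m lv (p ^ r) S).range (HE k lv (p ^ r) e) := by
  obtain ⟨M, hM⟩ := hx
  obtain ⟨a, ha⟩ := D0_inv hM
  exact mem_loc_of_pow (HE_ne he _) ⟨a, ha.symm⟩

lemma UU_LL {e : Fin n → Fin m} (he : Function.Injective e) (i : Fin n) (j : Fin m) :
    LL (p := p) k n m lv r S e 0 (UU k (lN lv) e i j) := by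
  rw [UU_eq (lN lv) e i j (dK_ne he _), div_eq_mul_inv]
  have h1 := LL_mul (LL_of (e := e) (dK_D0 (k := k) (lv := lv) (S := S) (r := r) (p := p)
    (lN lv i) (Function.update e i j))) (dK_inv_LL (S := S) (r := r) (p := p) he (lN lv i))
  rwa [add_neg_cancel] at h1

lemma zz_LL {e : Fin n → Fin m} (he : Function.Injective e) (b : Fin s) :
    LL (p := p) k n m lv r S e (Pi.single b 1) (zz k lv e b) := by
  rw [zz_eq he, div_eq_mul_inv]
  have h1 := LL_mul (LL_of (e := e) (dK_D0 (k := k) (lv := lv) (S := S) (r := r) (p := p)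
    (b : ℕ) e)) (dK_inv_LL (S := S) (r := r) (p := p) he ((b : ℕ) + 1))
  have h2 : om s b + -om s ((b : ℕ) + 1) = Pi.single b 1 := by
    rw [om_succ b]
    abel
  rwa [h2] at h1

lemma zz_LL' {e : Fin n → Fin m} (he : Function.Injective e) (b : Fin s) :
    LL (p := p) k n m lv r S e (-Pi.single b 1) (zz k lv e b)⁻¹ := by
  rw [zz_eq he, inv_div, div_eq_mul_inv]
  have h1 := LL_mul (LL_of (e := e) (dK_D0 (k := k) (lv := lv) (S := S) (r := r) (p := p)
    ((b : ℕ) + 1) e)) (dK_inv_LL (S := S) (r := r) (p := p) he (b : ℕ))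
  have h2 : om s ((b : ℕ) + 1) + -om s (b : ℕ) = -Pi.single b 1 := by
    rw [om_succ b]
    abel
  rwa [h2] at h1

lemma CC_dn {e : Fin n → Fin m} (he : Function.Injective e) :
    CC k lv (p ^ r) e ≤ Loc (gI k n m lv (p ^ r) S).range (HE k lv (p ^ r) e) := by
  have hU : ∀ i j, UU k (lN lv) e i j ∈
      Loc (gI k n m lv (p ^ r) S).range (HE k lv (p ^ r) e) := fun i j =>
    LL_loc he (UU_LL he i j)
  refine CC_le hU fun i l => ?_
  rw [TT_adj he, mul_pow_apply]
  refine Subalgebra.sum_mem _ fun j _ => Subalgebra.mul_mem _ ?_ (Subalgebra.pow_mem _ ?_ _)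
  · exact LL_loc he (LL_of (XK_D0 _ _))
  · exact adj_mem' he _ _ (fun x y => hU _ _) _ _

lemma CC_cv (hnm : n ≤ m) (V : ValuationSubring (FF k n m))
    (hV : ∀ a, gI k n m lv (p ^ r) S a ∈ V) :
    ∃ e : {e : Fin n → Fin m // Function.Injective e}, ∀ x ∈ CC k lv (p ^ r) e.1, x ∈ V := by
  obtain ⟨e, he, hgood⟩ := exists_good (lN lv) V hnm
  have hk : ∀ c : k, algebraMap k (FF k n m) c ∈ V := by
    intro c
    have h1 := hV (algebraMap k _ c)
    rwa [AlgHom.commutes] at h1
  have hU : ∀ i j, UU k (lN lv) e i j ∈ valAlg V hk := by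
    intro i j
    rw [UU_eq (lN lv) e i j (dK_ne he _)]
    exact hgood i _
  refine ⟨⟨e, he⟩, ?_⟩
  have h1 : CC k lv (p ^ r) e ≤ valAlg V hk := by
    refine CC_le hU fun i l => ?_
    rw [TT_adj he, mul_pow_apply]
    refine Subalgebra.sum_mem _ fun j _ => Subalgebra.mul_mem _ ?_ (Subalgebra.pow_mem _ ?_ _)
    · obtain ⟨a, ha⟩ := D0_inv (XK_D0 (k := k) (lv := lv) (S := S) (r := r) (p := p) i (e j))
      change XK k n m i (e j) ^ (p ^ r) ∈ V
      rw [ha]
      exact hV a
    · exact adj_mem' he _ _ (fun x y => hU _ _) _ _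
  exact fun x hx => h1 hx

section chart

variable {e : Fin n → Fin m} (he : Function.Injective e)

include he

lemma int_X (f : MvPolynomial (Fin n × Fin m) k) :
    IsIntegral (CC k lv (p ^ r) e) (algebraMap (MvPolynomial (Fin n × Fin m) k)
      (FF k n m) f) := by
  have hq : 0 < p ^ r := pow_pos hp.out.pos r
  induction f using MvPolynomial.induction_on with
  | C a =>
    have h : algebraMap (MvPolynomial (Fin n × Fin m) k) (FF k n m) (C a) =
        algebraMap k (FF k n m) a :=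
      (IsScalarTower.algebraMap_apply k (MvPolynomial (Fin n × Fin m) k) (FF k n m) a).symm
    rw [h]
    exact isIntegral_algebraMap (A := FF k n m)
      (x := (⟨_, Subalgebra.algebraMap_mem _ a⟩ : CC k lv (p ^ r) e))
  | add f g hf hg =>
    rw [map_add]
    exact hf.add hg
  | mul_X f v hf =>
    rw [map_mul]
    refine hf.mul ?_
    refine IsIntegral.of_pow hq ?_
    have h1 := XK_pow_mem (k := k) (lv := lv) (p := p) (r := r) he v.1 v.2
    exact isIntegral_algebraMap (A := FF k n m) (x := (⟨_, h1⟩ : CC k lv (p ^ r) e))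

lemma CC_alg : Algebra.IsAlgebraic (CC k lv (p ^ r) e) (FF k n m) := by
  refine ⟨fun x => ?_⟩
  obtain ⟨a, b, hb, rfl⟩ := IsFractionRing.div_surjective
    (A := MvPolynomial (Fin n × Fin m) k) x
  rw [div_eq_mul_inv]
  exact (int_X he a).isAlgebraic.mul (int_X he b).isAlgebraic.inv

lemma CC_aa (a : InvS k n m lv (p ^ r) S) :
    IsIntegral (QQ (CC k lv (p ^ r) e) (zz k lv e) (KK s (p ^ r) S)) (gI k n m lv (p ^ r) S a) ∧
      ∃ x ∈ QQ (CC k lv (p ^ r) e) (zz k lv e) (KK s (p ^ r) S),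
      ∃ y ∈ QQ (CC k lv (p ^ r) e) (zz k lv e) (KK s (p ^ r) S),
        y ≠ 0 ∧ gI k n m lv (p ^ r) S a * y = x := by
  set Q := QQ (CC k lv (p ^ r) e) (zz k lv e) (KK s (p ^ r) S) with hQ
  have hCQ : CC k lv (p ^ r) e ≤ Q := fun x hx => Algebra.subset_adjoin (Or.inl hx)
  refine ⟨int_mono hCQ (int_X he a.1), ?_⟩
  have h1 := desc (S := S) he (IntermediateField.adjoin k (Q : Set (FF k n m)))
    (fun i j => IntermediateField.subset_adjoin k _ (hCQ (UU_mem _ e i j)))
    (fun i l => IntermediateField.subset_adjoin k _ (hCQ (TT_mem _ e i l)))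
    (fun u hu => IntermediateField.subset_adjoin k _ (by
      refine Algebra.subset_adjoin (Or.inr ⟨fun b => (u b : ℤ), ?_, fun b => ?_, ?_⟩)
      · exact AddSubgroup.subset_closure (Or.inl ⟨u, hu, rfl⟩)
      · exact Int.natCast_nonneg _
      · exact Finset.prod_congr rfl fun b _ => (zpow_natCast _ _).symm)) a.1 a.2
  obtain ⟨x, hx, y, hy, h2⟩ := IntermediateField.mem_adjoin_iff_div.1 h1
  have hadj : Algebra.adjoin k (Q : Set (FF k n m)) = Q := Algebra.adjoin_eq Q
  rw [hadj] at hx hy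
  have h3 : gI k n m lv (p ^ r) S a = x / y := h2
  by_cases hy0 : y = 0
  · refine ⟨0, Q.zero_mem, 1, Q.one_mem, one_ne_zero, ?_⟩
    rw [h3, hy0, _root_.div_zero, zero_mul]
  · exact ⟨x, hx, y, hy, hy0, by rw [h3, div_mul_cancel₀ _ hy0]⟩

lemma CC_gen : ∃ (P : Type) (_ : Fintype P) (w : P → FF k n m),
    CC k lv (p ^ r) e = Algebra.adjoin k (Set.range w ∪
      {a | ∃ b i j, a = Ph k lv (p ^ r) e b i j}) ∧
    ((Fintype.card P + ∑ b : Fin s, Fintype.card {i // lv i = b} *
      Fintype.card {i // lv i = b} : ℕ) : Cardinal) ≤ Algebra.trdeg k (FF k n m) := by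
  classical
  have hq : 0 < p ^ r := pow_pos hp.out.pos r
  let P1 := {v : Fin n × Fin m // ¬ Q (lN lv) e v}
  let P2 := {v : Fin n × Fin n // lv v.1 < lv v.2}
  let w : P1 ⊕ P2 → FF k n m := Sum.elim (fun v => UU k (lN lv) e v.1.1 v.1.2)
    fun v => TT k lv e v.1.1 v.1.2 ^ (p ^ r)
  refine ⟨P1 ⊕ P2, inferInstance, w, ?_, ?_⟩
  · apply le_antisymm
    · refine CC_le (fun i j => ?_) fun i l => ?_
      · by_cases hQ' : Q (lN lv) e (i, j)
        · obtain ⟨l, hl, hj⟩ := hQ'
          change lN lv i ≤ lN lv l at hl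
          change e l = j at hj
          rw [← hj, UU_e (lN lv) e (fun _ => dK_ne he _) _ _ hl]
          split_ifs
          · exact Subalgebra.one_mem _
          · exact Subalgebra.zero_mem _
        · exact Algebra.subset_adjoin (Or.inl ⟨Sum.inl ⟨(i, j), hQ'⟩, rfl⟩)
      · rcases lt_trichotomy (lv i) (lv l) with h | h | h
        · exact Algebra.subset_adjoin (Or.inl ⟨Sum.inr ⟨(i, l), h⟩, rfl⟩)
        · refine Algebra.subset_adjoin (Or.inr ⟨lv l, (ep lv (lv l)).symm ⟨i, h⟩,
            (ep lv (lv l)).symm ⟨l, rfl⟩, ?_⟩)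
          change _ = (TT k lv e ((ep lv (lv l)) ((ep lv (lv l)).symm ⟨i, h⟩)).1
            ((ep lv (lv l)) ((ep lv (lv l)).symm ⟨l, rfl⟩)).1) ^ (p ^ r)
          rw [Equiv.apply_symm_apply, Equiv.apply_symm_apply]
        · rw [tri_TT he i l h, zero_pow hq.ne']
          exact Subalgebra.zero_mem _
    · rw [Algebra.adjoin_le_iff]
      rintro _ (⟨v | v, rfl⟩ | ⟨b, i, j, rfl⟩)
      · exact UU_mem _ e _ _
      · exact TT_mem _ e _ _
      · exact Ph_ent b i j
  · have h2 : IsTranscendenceBasis k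
        (fun v : Fin n × Fin m => algebraMap (MvPolynomial (Fin n × Fin m) k) (FF k n m) (X v)) := by
      have h0 : Algebra.IsAlgebraic (MvPolynomial (Fin n × Fin m) k) (FF k n m) :=
        IsLocalization.isAlgebraic _ (nonZeroDivisors (MvPolynomial (Fin n × Fin m) k))
      exact (IsTranscendenceBasis.mvPolynomial (Fin n × Fin m) k).algebraMap_comp (A := FF k n m)
    have h3 := h2.1.lift_cardinalMk_le_trdeg
    rw [Cardinal.mk_fintype, Cardinal.lift_natCast, Cardinal.lift_id'] at h3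
    refine le_trans ?_ h3
    rw [Nat.cast_le]
    -- the injection
    let F : (P1 ⊕ P2) ⊕ (Σ b : Fin s, Fin (Fintype.card {i // lv i = b}) ×
        Fin (Fintype.card {i // lv i = b})) → Fin n × Fin m :=
      Sum.elim (Sum.elim (fun v => v.1) fun v => (v.1.1, e v.1.2))
        fun v => ((ep lv v.1 v.2.1).1, e (ep lv v.1 v.2.2).1)
    have hF : Function.Injective F := by
      rintro ((⟨⟨i, j⟩, hv⟩ | ⟨⟨i, l⟩, hv⟩) | ⟨b, x, y⟩)
        ((⟨⟨i', j'⟩, hv'⟩ | ⟨⟨i', l'⟩, hv'⟩) | ⟨b', x', y'⟩) h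
      · have h1 : (i, j) = (i', j') := h
        cases h1
        rfl
      · exfalso
        have h1 : (i, j) = (i', e l') := h
        apply hv
        rw [h1]
        exact ⟨l', (show (lv i' : ℕ) < (lv l' : ℕ) from hv').le, rfl⟩
      · exfalso
        have h1 : (i, j) = ((ep lv b' x').1, e (ep lv b' y').1) := h
        apply hv
        rw [h1]
        refine ⟨(ep lv b' y').1, ?_, rfl⟩
        change (lv (ep lv b' x').1 : ℕ) ≤ (lv (ep lv b' y').1 : ℕ)
        rw [(ep lv b' x').2, (ep lv b' y').2]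
      · exfalso
        have h1 : (i, e l) = (i', j') := h
        apply hv'
        rw [← h1]
        exact ⟨l, (show (lv i : ℕ) < (lv l : ℕ) from hv).le, rfl⟩
      · have h1 : (i, e l) = (i', e l') := h
        obtain ⟨h4, h5⟩ := Prod.ext_iff.1 h1
        have h6 : i = i' := h4
        have h7 : l = l' := he h5
        subst h6
        subst h7
        rfl
      · exfalso
        have h1 : (i, e l) = ((ep lv b' x').1, e (ep lv b' y').1) := h
        obtain ⟨h4, h5⟩ := Prod.ext_iff.1 h1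
        have h6 : i = (ep lv b' x').1 := h4
        have h7 : l = (ep lv b' y').1 := he h5
        have h8 : lv i < lv l := hv
        rw [h6, h7, (ep lv b' x').2, (ep lv b' y').2] at h8
        exact lt_irrefl _ h8
      · exfalso
        have h1 : ((ep lv b x).1, e (ep lv b y).1) = (i', j') := h
        apply hv'
        rw [← h1]
        refine ⟨(ep lv b y).1, ?_, rfl⟩
        change (lv (ep lv b x).1 : ℕ) ≤ (lv (ep lv b y).1 : ℕ)
        rw [(ep lv b x).2, (ep lv b y).2]
      · exfalso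
        have h1 : ((ep lv b x).1, e (ep lv b y).1) = (i', e l') := h
        obtain ⟨h4, h5⟩ := Prod.ext_iff.1 h1
        have h6 : (ep lv b x).1 = i' := h4
        have h7 : (ep lv b y).1 = l' := he h5
        have h8 : lv i' < lv l' := hv'
        rw [← h6, ← h7, (ep lv b x).2, (ep lv b y).2] at h8
        exact lt_irrefl _ h8
      · have h1 : ((ep lv b x).1, e (ep lv b y).1) = ((ep lv b' x').1, e (ep lv b' y').1) := h
        obtain ⟨h4, h5⟩ := Prod.ext_iff.1 h1
        have h6 : (ep lv b x).1 = (ep lv b' x').1 := h4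
        have h7 : (ep lv b y).1 = (ep lv b' y').1 := he h5
        have h8 : b = b' := by
          rw [← (ep lv b x).2, ← (ep lv b' x').2, h6]
        subst h8
        have h9 : x = x' := (ep lv b).injective (Subtype.ext h6)
        have h10 : y = y' := (ep lv b).injective (Subtype.ext h7)
        rw [h9, h10]
    have h4 := Fintype.card_le_of_injective F hF
    rw [Fintype.card_sum, Fintype.card_sigma] at h4
    simp only [Fintype.card_prod, Fintype.card_fin] at h4 ⊢
    exact h4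

end chart

/-- The resolution. -/
theorem res (hnm : n ≤ m) (hlv : Function.Surjective lv) :
    Pool.Agent.H920R2.HasResolution (X := Spec (CommRingCat.of (InvS k n m lv (p ^ r) S)))
      (Spec.map (CommRingCat.ofHom (algebraMap k (InvS k n m lv (p ^ r) S)))) := by
  classical
  have hq : 0 < p ^ r := pow_pos hp.out.pos r
  refine detcover (g := gI k n m lv (p ^ r) S) gI_inj hq
    (n := fun b : Fin s => Fintype.card {i // lv i = b}) ?_ (KK s (p ^ r) S)
    (fun c => nsmul_KK _ c) (T := {e : Fin n → Fin m // Function.Injective e})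
    (C := fun e => CC k lv (p ^ r) e.1) (H := fun e => HE k lv (p ^ r) e.1)
    (Φ := fun e b => Ph k lv (p ^ r) e.1 b) (z := fun e b => zz k lv e.1 b)
    (D0 (p := p) k n m lv r S) (fun x hx => D0_inv hx) (fun a => gI_D0 a)
    (fun c hc => D0_one hc) (fun c c' a b ha hb => D0_mul ha hb)
    (fun e => HE_ne e.2 _) ?_ (fun e e' => rt' e.2 _ _) (fun e e' => gl' e.2 e'.2)
    (fun e => CC_dn e.2) (fun V hV => CC_cv hnm V hV) (fun e b => Ph_ent b)
    (fun e e' b => Ph_dom e.2 e'.2 b) (fun e b => zz_ne e.2 b) (fun e b => det_Ph b)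
    (fun e e' b => zz_ratio e.2 e'.2 b) (fun e b => zz_LL e.2 b) (fun e b => zz_LL' e.2 b)
    (fun e => CC_gen e.2) (fun e => CC_alg e.2) (fun e a => CC_aa e.2 a)
  · intro b
    obtain ⟨i, hi⟩ := hlv b
    exact Fintype.card_pos_iff.2 ⟨⟨i, hi⟩⟩
  · intro e
    obtain ⟨a, ha⟩ := D0_inv (HE_D0 (k := k) (lv := lv) (S := S) (r := r) (p := p) e.1)
    exact ⟨a, ha.symm⟩

end top

end Pool.Agent.N840.SK
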